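import Pool.Agent.H46.P5.Core

/-!
# P5: (YF), (LF), (RF)
-/

set_option autoImplicit false

namespace Pool.P546

open Finset Real
open Pool.Agent.H49.Ent Pool.Agent.H32.Dense Pool.STAT Pool.P5 Pool.MIC
open Pool.STK hiding bb
open Pool.P4 (t0 rt pp ze zt z0 be cl1 dg dgp Ry cb LLC tq err)
open Pool.BFL (Pb)

theorem log7 : Real.log (2 * 3 + 1) ≤ 3 := by
  have h1 : Real.log (2 * 3 + 1) ≤ Real.log 8 := Real.log_le_log (by norm_num) (by norm_num)
  have h4 : Real.log 8 = 3 * Real.log 2 := by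
    rw [show (8 : ℝ) = 2 ^ 3 by norm_num, Real.log_pow]
    norm_num
  have := Real.log_two_lt_d9
  linarith

theorem log13 : Real.log (2 * 6 + 1) ≤ 3 := by
  have h1 : Real.log (2 * 6 + 1) ≤ Real.log 16 := Real.log_le_log (by norm_num) (by norm_num)
  have h4 : Real.log 16 = 4 * Real.log 2 := by
    rw [show (16 : ℝ) = 2 ^ 4 by norm_num, Real.log_pow]
    norm_num
  have := Real.log_two_lt_d9
  linarith

theorem logR_le {z : ℕ} {C x : ℝ} (hC : 1 ≤ C) (hx : 0 ≤ x) :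
    Real.log (2 * (x * Ry z C) + 1) ≤ 2 * x + C * z := by
  have hR := Ry_one' (z := z) hC
  have h1 : 2 * (x * Ry z C) + 1 ≤ (2 * x + 1) * Ry z C := by
    have : (2 * x + 1) * Ry z C = 2 * (x * Ry z C) + Ry z C := by ring
    rw [this]
    linarith
  have h2 := Real.log_le_log (by positivity) h1
  rw [Real.log_mul (by positivity) (by positivity)] at h2
  have h3 : Real.log (Ry z C) = C * z := by
    unfold Ry
    rw [Real.log_exp]
  have h4 := Real.log_le_sub_one_of_pos (show (0 : ℝ) < 2 * x + 1 by positivity)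
  linarith

section

variable {D : NDat2} {n K K' J a₀ w₀ z M w i j r r2 r' r'' y a X : ℕ} {lam gam : ℕ → ℝ}
  {κ C₁ C : ℝ} {q : D.Ω → ℝ} {E : D.Ω → Prop} {P : D.Γ × D.Γ → ℕ → PN}
  {S : Slo D} {c k0 k1 : ℕ} {ys : Fin (k0 + k1) → ℕ} {gs : Fin c → ℕ}

variable (H : Hyp D n K K' J a₀ w₀ z M w i j r r2 r' r'' y a X lam gam κ C₁ C q E P S ys gs)

include H

/-- The numbers. -/
theorem nums {F : ℝ} (hF : F = (1 + κ) * z + X * Pb q (fun ω => ¬ E ω)) :
    1 ≤ F ∧ (z : ℝ) ≤ F ∧ κ * z ≤ F ∧ (X : ℝ) * Pb q (fun ω => ¬ E ω) ≤ F ∧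
      κ * z + z ≤ F := by
  have hq := H.ok.isLaw
  have b0 := Pb_nonneg hq.nonneg (fun ω => ¬ E ω)
  have hz : (1 : ℝ) ≤ z := by exact_mod_cast H.z1
  have hX : (0 : ℝ) ≤ X := Nat.cast_nonneg _
  have hXb := mul_nonneg hX b0
  have hκz : 0 ≤ κ * z := mul_nonneg H.κ0 (by linarith)
  have e : (1 + κ) * (z : ℝ) = z + κ * z := by ring
  rw [e] at hF
  refine ⟨?_, ?_, ?_, ?_, ?_⟩ <;> linarith

/-- The data of weight 0, at `L2`. -/
theorem V0_few : CH (cond q E True) (V0 D J w z i j r X C P ys gs)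
    (fun ω => (D.lft i j r2 r 1 ω, Wc D J w i j r ω)) ≤ 3 * (k0 + k1 + c) := by
  have hp := (plaw H).nonneg
  have h1 := CH_subadd hp (Y0 D J w z i j r X C P ys) (fun ω => (mv D J w z i j r X C P ys ω,
    be2v D J w z i j r X C P gs ω)) (fun ω => (D.lft i j r2 r 1 ω, Wc D J w i j r ω))
  have h2 := CH_subadd hp (mv D J w z i j r X C P ys) (be2v D J w z i j r X C P gs)
    (fun ω => (D.lft i j r2 r 1 ω, Wc D J w i j r ω))
  have h3 : CH (cond q E True) (Y0 D J w z i j r X C P ys)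
    (fun ω => (D.lft i j r2 r 1 ω, Wc D J w i j r ω)) ≤ k0 * Real.log (2 * 3 + 1) := y0_few H
  have h4 : CH (cond q E True) (mv D J w z i j r X C P ys)
    (fun ω => (D.lft i j r2 r 1 ω, Wc D J w i j r ω)) ≤ k1 * Real.log (2 * 3 + 1) := mv_few H
  have h5 : CH (cond q E True) (be2v D J w z i j r X C P gs)
    (fun ω => (D.lft i j r2 r 1 ω, Wc D J w i j r ω)) ≤ c * Real.log (2 * 3 + 1) := be2v_few H
  have t1 := mul_le_mul_of_nonneg_left log7 (Nat.cast_nonneg (α := ℝ) k0)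
  have t2 := mul_le_mul_of_nonneg_left log7 (Nat.cast_nonneg (α := ℝ) k1)
  have t3 := mul_le_mul_of_nonneg_left log7 (Nat.cast_nonneg (α := ℝ) c)
  have h6 : CH (cond q E True) (V0 D J w z i j r X C P ys gs)
    (fun ω => (D.lft i j r2 r 1 ω, Wc D J w i j r ω)) = CH (cond q E True)
      (fun ω => (Y0 D J w z i j r X C P ys ω, (mv D J w z i j r X C P ys ω,
        be2v D J w z i j r X C P gs ω))) (fun ω => (D.lft i j r2 r 1 ω, Wc D J w i j r ω)) := rfl
  rw [h6]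
  linarith

/-- **(LF)**, with the exact time. -/
theorem lf_key {F : ℝ} (hF : F = (1 + κ) * z + X * Pb q (fun ω => ¬ E ω)) :
    (k1 : ℝ) * X * Real.log 2 ≤ CH q (L0 D J w z i j r X C P ys)
      (fun ω => (V0 D J w z i j r X C P ys gs ω, Wc D J w i j r ω)) +
      (14 + 20 * (k0 + k1 + c) + k1 * (43 + 34 * k0 + 2 * C) + 6 * (k1 * k0) +
        (2 * C + 4 * n * (C + 1) + 10 * n)) * F := by
  have hq := H.ok.isLaw
  have hp := plaw H
  have hp0 := hp.nonneg
  obtain ⟨F1, F2, F3, F4, F5⟩ := nums H hF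
  have hC := H.Cg
  have hn : (0 : ℝ) ≤ n := Nat.cast_nonneg _
  have hk0 : (0 : ℝ) ≤ k0 := Nat.cast_nonneg _
  have hk1 : (0 : ℝ) ≤ k1 := Nat.cast_nonneg _
  have hc : (0 : ℝ) ≤ c := Nat.cast_nonneg _
  have hl : Real.log 2 ≤ 1 := by
    have := Real.log_two_lt_d9
    linarith
  have hl0 : 0 ≤ Real.log 2 := Real.log_nonneg (by norm_num)
  -- the leaf and the data of weight 0
  have a1 : CH (cond q E True) (D.rgt i j r2 r 1) (Wc D J w i j r) ≤
      CH (cond q E True) (D.rgt i j r2 r 1) (fun ω => (D.lft i j r2 r 1 ω, Wc D J w i j r ω)) +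
        2 * (κ * z + Real.log 2) := mi5E H (r2i H) (r2M H)
  have a2 := V0_few H
  have a3 : CH (cond q E True)
      (fun ω => (La D J w z i j r X C P S ys gs ω, Elv D X S ys ω))
      (fun ω => (D.rgt i j r2 r 1 ω, Wc D J w i j r ω)) ≤
      k1 * (2 * (10 + 7 * k0) + C * z) + 3 * (k1 * k0) := by
    have b1 := CH_subadd hp0 (La D J w z i j r X C P S ys gs) (Elv D X S ys)
      (fun ω => (D.rgt i j r2 r 1 ω, Wc D J w i j r ω))
    have b2 : CH (cond q E True) (La D J w z i j r X C P S ys gs)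
      (fun ω => (D.rgt i j r2 r 1 ω, Wc D J w i j r ω)) ≤
      k1 * Real.log (2 * ((10 + 7 * k0) * Ry z C) + 1) := la_few H
    have b3 : CH (cond q E True) (Elv D X S ys)
      (fun ω => (D.rgt i j r2 r 1 ω, Wc D J w i j r ω)) ≤
      k1 * k0 * Real.log (2 * 3 + 1) := Elv_few H (Or.inl rfl)
    have b4 := mul_le_mul_of_nonneg_left (logR_le (z := z) hC
      (show (0 : ℝ) ≤ 10 + 7 * k0 by positivity)) hk1
    have b5 := mul_le_mul_of_nonneg_left log7 (mul_nonneg hk1 hk0)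
    linarith
  have h1 := mi_part hp0 a1 a2 a3
  -- the slopes and the line
  have c1 : CH (cond q E True) (D.rgt i j r'' r 1) (Wc D J w i j r) ≤
      CH (cond q E True) (D.rgt i j r'' r 1) (fun ω => (D.lft i j r'' r 1 ω, Wc D J w i j r ω)) +
        2 * (κ * z + Real.log 2) := mi5E H H.i1 H.i2
  have c2 : CH (cond q E True) (fun ω => (Lt D z i j r X C P ys ω, Yt D z i j r X C P ys ω))
      (fun ω => (D.lft i j r'' r 1 ω, Wc D J w i j r ω)) ≤ 3 * (k0 + k1) := by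
    have b1 : CH (cond q E True) (ztv D z i j r X C P ys)
      (fun ω => (D.lft i j r'' r 1 ω, Wc D J w i j r ω)) ≤
      (k0 + k1) * Real.log (2 * 6 + 1) := zt_few H
    have b2 := mul_le_mul_of_nonneg_left log13 (add_nonneg hk0 hk1)
    have b3 : CH (cond q E True) (fun ω => (Lt D z i j r X C P ys ω, Yt D z i j r X C P ys ω))
        (fun ω => (D.lft i j r'' r 1 ω, Wc D J w i j r ω)) ≤
        CH (cond q E True) (ztv D z i j r X C P ys)
        (fun ω => (D.lft i j r'' r 1 ω, Wc D J w i j r ω)) := by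
      refine CH_mono_left hp0 ?_
      intro ω ω' _ _ e
      have e1 : ztv D z i j r X C P ys ω = ztv D z i j r X C P ys ω' := (Prod.ext_iff.1 e).1
      refine Prod.ext ?_ ?_
      · funext l
        exact congrFun e1 (Fin.natAdd k0 l)
      · funext l
        exact congrFun e1 (Fin.castAdd k1 l)
    linarith
  have c3 : CH (cond q E True) (Elv D X S ys)
      (fun ω => (D.rgt i j r'' r 1 ω, Wc D J w i j r ω)) ≤ 3 * (k1 * k0) := by
    have b3 : CH (cond q E True) (Elv D X S ys)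
      (fun ω => (D.rgt i j r'' r 1 ω, Wc D J w i j r ω)) ≤
      k1 * k0 * Real.log (2 * 3 + 1) := Elv_few H (Or.inr rfl)
    have b5 := mul_le_mul_of_nonneg_left log7 (mul_nonneg hk1 hk0)
    linarith
  have h2 := mi_part hp0 c1 c2 c3
  -- few values
  have h3 := la_det H
  have h4 := lt_few H
  have h4' := mul_le_mul_of_nonneg_left (logR_le (z := z) hC
      (show (0 : ℝ) ≤ 11 + 10 * k0 by positivity)) hk1
  have h5 : CH (cond q E True) (Yt D z i j r X C P ys)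
      (fun ω => (Elv D X S ys ω, Wc D J w i j r ω)) ≤ k0 * X * Real.log 2 + 0 := by
    rw [add_zero]
    exact dig_law hp _ _ fun ω _ l => ztv_rng ys ω _
  have h6 : (k1 : ℝ) * X * Real.log 2 + k0 * X * Real.log 2 ≤
      CH (cond q E True) (fun ω => (Lt D z i j r X C P ys ω, Yt D z i j r X C P ys ω))
        (Wc D J w i j r) + (2 * C + 6 + 4 * n * (C + 1) + 14 * (k0 + k1) + 10 * n) * F := by
    have b1 := zt_full H hF
    have b2 : CH (cond q E True) (ztv D z i j r X C P ys) (Wc D J w i j r) ≤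
        CH (cond q E True) (fun ω => (Lt D z i j r X C P ys ω, Yt D z i j r X C P ys ω))
        (Wc D J w i j r) := by
      refine CH_mono_left hp0 ?_
      intro ω ω' _ _ e
      have e1 := Prod.ext_iff.1 (Prod.ext_iff.1 e).1
      funext b
      refine Fin.addCases (fun b => ?_) (fun b => ?_) b
      · exact congrFun e1.2 b
      · exact congrFun e1.1 b
    have b3 : ((k0 : ℝ) + k1) * X * Real.log 2 =
        (k1 : ℝ) * X * Real.log 2 + k0 * X * Real.log 2 := by ring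
    rw [b3] at b1
    linarith
  have key := lf_core hp0 (W := Wc D J w i j r) (c0 := Wc D J w i j r)
    (V0 := V0 D J w z i j r X C P ys gs) (El := Elv D X S ys)
    (La := La D J w z i j r X C P S ys gs) (L0 := L0 D J w z i j r X C P ys)
    (Lt := Lt D z i j r X C P ys) (Yt := Yt D z i j r X C P ys) (fun _ _ _ _ h => h)
    h1 h2 h3 (h4.trans h4') h5 h6
  obtain ⟨err0, herr0⟩ : ∃ err0 : ℝ, err0 =
      (13 + 20 * (k0 + k1 + c) + k1 * (42 + 34 * k0 + 2 * C) + 6 * (k1 * k0) +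
        (2 * C + 1 + 4 * n * (C + 1) + 10 * n)) * F := ⟨_, rfl⟩
  have key2 : (k1 : ℝ) * X * Real.log 2 ≤ CH (cond q E True) (L0 D J w z i j r X C P ys)
      (fun ω => (V0 D J w z i j r X C P ys gs ω, Wc D J w i j r ω)) + err0 := by
    refine key.trans (add_le_add le_rfl ?_)
    have t1 : (3 : ℝ) * (k0 + k1 + c) * 1 ≤ 3 * (k0 + k1 + c) * F :=
      mul_le_mul_of_nonneg_left F1 (by positivity)
    have t2 : (k1 : ℝ) * (2 * (10 + 7 * k0) + C * z) ≤ k1 * (2 * (10 + 7 * k0) * F + C * F) := by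
      refine mul_le_mul_of_nonneg_left ?_ hk1
      have s1 : 2 * (10 + 7 * (k0 : ℝ)) * 1 ≤ 2 * (10 + 7 * k0) * F :=
        mul_le_mul_of_nonneg_left F1 (by positivity)
      have s2 : C * z ≤ C * F := mul_le_mul_of_nonneg_left F2 (by linarith)
      linarith
    have t3 : (3 : ℝ) * (k1 * k0) * 1 ≤ 3 * (k1 * k0) * F :=
      mul_le_mul_of_nonneg_left F1 (by positivity)
    have t4 : (3 : ℝ) * (k0 + k1) * 1 ≤ 3 * (k0 + k1) * F :=
      mul_le_mul_of_nonneg_left F1 (by positivity)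
    have t5 : (k1 : ℝ) * (2 * (11 + 10 * k0) + C * z) ≤
        k1 * (2 * (11 + 10 * k0) * F + C * F) := by
      refine mul_le_mul_of_nonneg_left ?_ hk1
      have s1 : 2 * (11 + 10 * (k0 : ℝ)) * 1 ≤ 2 * (11 + 10 * k0) * F :=
        mul_le_mul_of_nonneg_left F1 (by positivity)
      have s2 : C * z ≤ C * F := mul_le_mul_of_nonneg_left F2 (by linarith)
      linarith
    have t6 : 0 ≤ (c : ℝ) * F := mul_nonneg hc (by linarith)
    rw [herr0]
    have t7 : (13 + 20 * (k0 + k1 + c) + k1 * (42 + 34 * k0 + 2 * C) + 6 * (k1 * k0) +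
        (2 * C + 1 + 4 * n * (C + 1) + 10 * n)) * F =
        8 * F + 3 * (k0 + k1 + c) * F + k1 * (2 * (10 + 7 * k0) * F + C * F) +
        3 * (k1 * k0) * F + 3 * (k0 + k1) * F + 3 * (k1 * k0) * F +
        k1 * (2 * (11 + 10 * k0) * F + C * F) +
        (2 * C + 6 + 4 * n * (C + 1) + 14 * (k0 + k1) + 10 * n) * F + 17 * (c * F) := by ring
    rw [t7]
    linarith
  have hF0 : 0 ≤ F := by linarith
  have he : 0 ≤ err0 := by
    rw [herr0]
    have : 0 ≤ C := by linarith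
    positivity
  have fin := of_ev hq (L0 D J w z i j r X C P ys)
    (fun ω => (V0 D J w z i j r X C P ys gs ω, Wc D J w i j r ω)) E H.pE he key2
  refine fin.trans (add_le_add le_rfl ?_)
  obtain ⟨b, hb⟩ : ∃ b : ℝ, b = Pb q (fun ω => ¬ E ω) := ⟨_, rfl⟩
  rw [← hb] at F4 ⊢
  have hb0 : 0 ≤ b := by rw [hb]; exact Pb_nonneg hq.nonneg _
  have u1 : b * ((k1 : ℝ) * X * Real.log 2) ≤ k1 * F := by
    have : b * ((k1 : ℝ) * X * Real.log 2) = k1 * (X * b) * Real.log 2 := by ring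
    rw [this]
    have s1 : (k1 : ℝ) * (X * b) ≤ k1 * F := mul_le_mul_of_nonneg_left F4 hk1
    have s2 : 0 ≤ (k1 : ℝ) * (X * b) := by positivity
    calc (k1 : ℝ) * (X * b) * Real.log 2 ≤ k1 * (X * b) * 1 :=
          mul_le_mul_of_nonneg_left hl s2
      _ ≤ k1 * F := by rw [mul_one]; exact s1
  rw [herr0]
  have u2 : (14 + 20 * (k0 + k1 + c) + k1 * (43 + 34 * k0 + 2 * C) + 6 * (k1 * k0) +
        (2 * C + 4 * n * (C + 1) + 10 * n)) * F =
      (13 + 20 * (k0 + k1 + c) + k1 * (42 + 34 * k0 + 2 * C) + 6 * (k1 * k0) +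
        (2 * C + 1 + 4 * n * (C + 1) + 10 * n)) * F + k1 * F := by ring
  rw [u2]
  linarith

/-- The constant coordinates are full, given the event and the exact time. -/
theorem y0_full {F : ℝ} (hF : F = (1 + κ) * z + X * Pb q (fun ω => ¬ E ω)) :
    (k0 : ℝ) * X * Real.log 2 ≤ CH (cond q E True) (Y0 D J w z i j r X C P ys)
      (Wc D J w i j r) +
      (2 * C + 6 + 4 * n * (C + 1) + 14 * (k0 + k1) + 10 * n + 3 * k0) * F := by
  have hp := plaw H
  have hp0 := hp.nonneg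
  obtain ⟨F1, F2, F3, F4, F5⟩ := nums H hF
  have b1 := zt_full H hF
  have b2 : CH (cond q E True) (ztv D z i j r X C P ys) (Wc D J w i j r) ≤
      CH (cond q E True) (fun ω => (Lt D z i j r X C P ys ω, Yt D z i j r X C P ys ω))
      (Wc D J w i j r) := by
    refine CH_mono_left hp0 ?_
    intro ω ω' _ _ e
    have e1 := Prod.ext_iff.1 (Prod.ext_iff.1 e).1
    funext b
    refine Fin.addCases (fun b => ?_) (fun b => ?_) b
    · exact congrFun e1.2 b
    · exact congrFun e1.1 b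
  have b3 := CH_subadd hp0 (Lt D z i j r X C P ys) (Yt D z i j r X C P ys) (Wc D J w i j r)
  have b4 : CH (cond q E True) (Lt D z i j r X C P ys) (Wc D J w i j r) ≤
      k1 * X * Real.log 2 := dig_law hp _ _ fun ω _ l => ztv_rng ys ω _
  have b5 := CH_le_add hp0 (Yt D z i j r X C P ys) (Y0 D J w z i j r X C P ys)
    (Wc D J w i j r)
  have b6 : CH (cond q E True) (Yt D z i j r X C P ys)
      (fun ω => (Y0 D J w z i j r X C P ys ω, Wc D J w i j r ω)) ≤
      k0 * Real.log (2 * 6 + 1) := by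
    have h := few_law hp (Yt D z i j r X C P ys)
      (fun ω => (Y0 D J w z i j r X C P ys ω, Wc D J w i j r ω)) (m := 6) (by
        intro ω ω' p p' e b
        obtain ⟨g1, g2⟩ := ppos H p
        obtain ⟨g3, g4⟩ := ppos H p'
        have eY : dgp X ((z0 D J w i j r P ω (ys (Fin.castAdd k1 b)) + Ry z C) / (2 * Ry z C)) =
          dgp X ((z0 D J w i j r P ω' (ys (Fin.castAdd k1 b)) + Ry z C) / (2 * Ry z C)) :=
          congrFun (Prod.ext_iff.1 e).1 b
        have n1 := yv_near H g1 g2 (Fin.castAdd k1 b)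
        have n2 := yv_near H g3 g4 (Fin.castAdd k1 b)
        unfold yv at n1 n2
        rw [eY] at n1
        have s1 := (H.geo.slow0 ω g1 g2 _ (H.ys0 b) w H.w1 H.w2).1
        have s2 := (H.geo.slow0 ω' g3 g4 _ (H.ys0 b) w H.w1 H.w2).1
        have hτ := tauX H
        have hR := Ry_one' (z := z) H.Cg
        obtain ⟨τ, hτ'⟩ : ∃ τ, τ = exp (C * z) / 2 ^ (y * z) := ⟨_, rfl⟩
        rw [← hτ'] at hτ s1 s2
        obtain ⟨R, hRR⟩ : ∃ R, R = Ry z C := ⟨_, rfl⟩
        rw [← hRR] at n1 n2 hR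
        obtain ⟨N, hNN⟩ : ∃ N : ℝ, N = 2 ^ X := ⟨_, rfl⟩
        have hN : (0 : ℝ) < N := by rw [hNN]; positivity
        rw [← hNN] at n1 n2 hτ
        obtain ⟨m, hm⟩ : ∃ m : ℝ, m = (dgp X ((z0 D J w i j r P ω' (ys (Fin.castAdd k1 b)) + R) /
          (2 * R)) : ℝ) := ⟨_, rfl⟩
        rw [← hm] at n1 n2
        obtain ⟨A, hA⟩ : ∃ A, A = z0 D J w i j r P ω (ys (Fin.castAdd k1 b)) := ⟨_, rfl⟩
        obtain ⟨A', hA'⟩ : ∃ A', A' = z0 D J w i j r P ω' (ys (Fin.castAdd k1 b)) := ⟨_, rfl⟩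
        obtain ⟨ζ, hζ⟩ : ∃ ζ, ζ = ze D i j r P ω (ys (Fin.castAdd k1 b)) := ⟨_, rfl⟩
        obtain ⟨ζ', hζ'⟩ : ∃ ζ', ζ' = ze D i j r P ω' (ys (Fin.castAdd k1 b)) := ⟨_, rfl⟩
        rw [← hA] at n1 s1
        rw [← hA'] at n2 s2
        rw [← hζ] at s1
        rw [← hζ'] at s2
        have hR0 : 0 < R := by linarith
        have t1 : N * ((A + R) / (2 * R)) = N / (2 * R) * A + N / 2 := by field_simp
        have t2 : N * ((A' + R) / (2 * R)) = N / (2 * R) * A' + N / 2 := by field_simp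
        rw [t1] at n1
        rw [t2] at n2
        have cst : ∀ x : ℝ, |x| ≤ τ → |N / (2 * R) * x| ≤ 1 := by
          intro x hx
          rw [abs_mul, abs_of_pos (by positivity : 0 < N / (2 * R))]
          calc N / (2 * R) * |x| ≤ N / (2 * R) * τ := mul_le_mul_of_nonneg_left hx (by positivity)
            _ = (N * τ) / (2 * R) := by ring
            _ ≤ 1 / 1 := div_le_div₀ (by norm_num) hτ (by norm_num) (by linarith)
            _ = 1 := by norm_num
        have v1 := cst _ s1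
        have v2 := cst _ s2
        rw [mul_sub] at v1 v2
        have u3 : |N / (2 * R) * ζ - N / (2 * R) * ζ'| ≤ 4 := by
          rw [abs_le] at n1 n2 v1 v2 ⊢
          constructor <;> linarith only [n1.1, n1.2, n2.1, n2.2, v1.1, v1.2, v2.1, v2.2]
        have u4 : (2 : ℝ) ^ X * |(ζ + R) / (2 * R) - (ζ' + R) / (2 * R)| ≤ 4 := by
          rw [← hNN]
          refine le_trans (le_of_eq ?_) u3
          have : (ζ + R) / (2 * R) - (ζ' + R) / (2 * R) = (ζ - ζ') / (2 * R) := by ring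
          rw [this, abs_div, abs_of_pos (by linarith : 0 < 2 * R), ← mul_sub, abs_mul,
            abs_of_pos (by positivity : 0 < N / (2 * R))]
          ring
        have u5 := Pool.P4E.dgp_sub u4
        rw [hζ, hζ', hRR] at u5
        unfold Yt ztv
        linarith)
    rwa [Fintype.card_fin] at h
  have b7 := mul_le_mul_of_nonneg_left log13 (Nat.cast_nonneg (α := ℝ) k0)
  have hk0 : (0 : ℝ) ≤ k0 := Nat.cast_nonneg _
  have b8 : (3 : ℝ) * k0 * 1 ≤ 3 * k0 * F := mul_le_mul_of_nonneg_left F1 (by positivity)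
  have b9 : ((k0 : ℝ) + k1) * X * Real.log 2 =
      k0 * X * Real.log 2 + k1 * X * Real.log 2 := by ring
  have b10 : (2 * C + 6 + 4 * n * (C + 1) + 14 * (k0 + k1) + 10 * n + 3 * k0) * F =
      (2 * C + 6 + 4 * n * (C + 1) + 14 * (k0 + k1) + 10 * n) * F + 3 * k0 * F := by ring
  rw [b9] at b1
  rw [b10]
  linarith

/-- The abstract time and the leaf, at `R2`. -/
theorem tf_few : CH (cond q E True)
    (fun ω => (tv D J w z i j r X C S ys gs ω, fR J w X (tv D J w z i j r X C S ys gs ω)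
      (vv D J w z i j r X C P ys gs ω)))
    (fun ω => (D.rgt i j r2 r 1 ω, Wc D J w i j r ω)) ≤
      3 * (c * (k0 + k1)) + 3 * (k1 * k0) + 3 * (c * k0) +
        k1 * (2 * (10 + 7 * k0) + C * z) + c * (2 * (12 + 7 * k0 + 4 * k1)) := by
  have hp := (plaw H).nonneg
  have hC := H.Cg
  have hk0 : (0 : ℝ) ≤ k0 := Nat.cast_nonneg _
  have hk1 : (0 : ℝ) ≤ k1 := Nat.cast_nonneg _
  have hc : (0 : ℝ) ≤ c := Nat.cast_nonneg _
  obtain ⟨Wv, hWv⟩ : ∃ Wv : D.Ω → Fin c → ℤ, Wv = fun ω u =>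
    ⌊wR J w X (tv D J w z i j r X C S ys gs ω) (vv D J w z i j r X C P ys gs ω) u⌋ := ⟨_, rfl⟩
  have a1 : CH (cond q E True) (Sv D z X C S ys gs)
      (fun ω => (D.rgt i j r2 r 1 ω, Wc D J w i j r ω)) ≤
      c * (k0 + k1) * Real.log (2 * 3 + 1) := Sv_few5 H
  have a2 : CH (cond q E True) (Elv D X S ys)
      (fun ω => (D.rgt i j r2 r 1 ω, Wc D J w i j r ω)) ≤
      k1 * k0 * Real.log (2 * 3 + 1) := Elv_few H (Or.inl rfl)
  have a3 : CH (cond q E True) (Evv D w z X C S ys gs)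
      (fun ω => (D.rgt i j r2 r 1 ω, Wc D J w i j r ω)) ≤
      c * k0 * Real.log (2 * 3 + 1) := Evv_few H
  have a4 : CH (cond q E True) (La D J w z i j r X C P S ys gs)
      (fun ω => (D.rgt i j r2 r 1 ω, Wc D J w i j r ω)) ≤
      k1 * Real.log (2 * ((10 + 7 * k0) * Ry z C) + 1) := la_few H
  have a5 : CH (cond q E True) Wv
      (fun ω => (D.rgt i j r2 r 1 ω, Wc D J w i j r ω)) ≤
      c * Real.log (2 * (12 + 7 * k0 + 4 * k1) + 1) := by
    rw [hWv]
    exact w_few H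
  have t1 := mul_le_mul_of_nonneg_left log7 (mul_nonneg hc (add_nonneg hk0 hk1))
  have t2 := mul_le_mul_of_nonneg_left log7 (mul_nonneg hk1 hk0)
  have t3 := mul_le_mul_of_nonneg_left log7 (mul_nonneg hc hk0)
  have t4 := mul_le_mul_of_nonneg_left (logR_le (z := z) hC
      (show (0 : ℝ) ≤ 10 + 7 * k0 by positivity)) hk1
  have t5 : Real.log (2 * (12 + 7 * (k0 : ℝ) + 4 * k1) + 1) ≤
      2 * (12 + 7 * (k0 : ℝ) + 4 * k1) := by
    have := Real.log_le_sub_one_of_pos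
      (show (0 : ℝ) < 2 * (12 + 7 * (k0 : ℝ) + 4 * k1) + 1 by positivity)
    linarith
  have t6 := mul_le_mul_of_nonneg_left t5 hc
  have b1 := CH_subadd hp (Sv D z X C S ys gs) (fun ω => (Elv D X S ys ω,
    (Evv D w z X C S ys gs ω, (La D J w z i j r X C P S ys gs ω, Wv ω))))
    (fun ω => (D.rgt i j r2 r 1 ω, Wc D J w i j r ω))
  have b2 := CH_subadd hp (Elv D X S ys) (fun ω =>
    (Evv D w z X C S ys gs ω, (La D J w z i j r X C P S ys gs ω, Wv ω)))
    (fun ω => (D.rgt i j r2 r 1 ω, Wc D J w i j r ω))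
  have b3 := CH_subadd hp (Evv D w z X C S ys gs) (fun ω =>
    (La D J w z i j r X C P S ys gs ω, Wv ω))
    (fun ω => (D.rgt i j r2 r 1 ω, Wc D J w i j r ω))
  have b4 := CH_subadd hp (La D J w z i j r X C P S ys gs) Wv
    (fun ω => (D.rgt i j r2 r 1 ω, Wc D J w i j r ω))
  have b5 : CH (cond q E True)
      (fun ω => (tv D J w z i j r X C S ys gs ω, fR J w X (tv D J w z i j r X C S ys gs ω)
        (vv D J w z i j r X C P ys gs ω)))
      (fun ω => (D.rgt i j r2 r 1 ω, Wc D J w i j r ω)) ≤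
      CH (cond q E True) (fun ω => (Sv D z X C S ys gs ω, (Elv D X S ys ω,
        (Evv D w z X C S ys gs ω, (La D J w z i j r X C P S ys gs ω, Wv ω)))))
      (fun ω => (D.rgt i j r2 r 1 ω, Wc D J w i j r ω)) := by
    refine CH_mono_left hp ?_
    intro ω ω' _ _ e
    have e1 := Prod.ext_iff.1 e
    have e2 := Prod.ext_iff.1 e1.1
    have e3 := Prod.ext_iff.1 e2.2
    have e4 := Prod.ext_iff.1 e3.2
    have e5 := Prod.ext_iff.1 e4.2
    have e6 := Prod.ext_iff.1 e1.2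
    have e7 := Prod.ext_iff.1 e6.2
    refine Prod.ext (Prod.ext e7.1 (Prod.ext e7.2 (Prod.ext e2.1 (Prod.ext e3.1 e4.1)))) ?_
    refine Prod.ext e5.1 ?_
    have e8 : Wv ω = Wv ω' := e5.2
    rw [hWv] at e8
    exact e8
  linarith

/-- **(RF)**, with the exact time. -/
theorem rf_key {F : ℝ} (hF : F = (1 + κ) * z + X * Pb q (fun ω => ¬ E ω)) :
    (k0 : ℝ) * X * Real.log 2 ≤ CH q (Y0 D J w z i j r X C P ys)
      (fun ω => ((tv D J w z i j r X C S ys gs ω, fR J w X (tv D J w z i j r X C S ys gs ω)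
        (vv D J w z i j r X C P ys gs ω)), Wc D J w i j r ω)) +
      (10 + 21 * (k0 + k1) + 5 * (c * (k0 + k1)) + 3 * (k1 * k0) + 3 * (c * k0) +
        k1 * (20 + 14 * k0 + C) + c * (24 + 14 * k0 + 8 * k1) +
        (2 * C + 4 * n * (C + 1) + 10 * n)) * F := by
  have hq := H.ok.isLaw
  have hp := plaw H
  have hp0 := hp.nonneg
  obtain ⟨F1, F2, F3, F4, F5⟩ := nums H hF
  have hC := H.Cg
  have hn : (0 : ℝ) ≤ n := Nat.cast_nonneg _
  have hk0 : (0 : ℝ) ≤ k0 := Nat.cast_nonneg _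
  have hk1 : (0 : ℝ) ≤ k1 := Nat.cast_nonneg _
  have hc : (0 : ℝ) ≤ c := Nat.cast_nonneg _
  have hl : Real.log 2 ≤ 1 := by
    have := Real.log_two_lt_d9
    linarith
  have a1 : CH (cond q E True) (D.rgt i j r2 r 1) (Wc D J w i j r) ≤
      CH (cond q E True) (D.rgt i j r2 r 1) (fun ω => (D.lft i j r2 r 1 ω, Wc D J w i j r ω)) +
        2 * (κ * z + Real.log 2) := mi5E H (r2i H) (r2M H)
  have a2 : CH (cond q E True) (Y0 D J w z i j r X C P ys)
      (fun ω => (D.lft i j r2 r 1 ω, Wc D J w i j r ω)) ≤ 3 * k0 := by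
    have h3 : CH (cond q E True) (Y0 D J w z i j r X C P ys)
      (fun ω => (D.lft i j r2 r 1 ω, Wc D J w i j r ω)) ≤ k0 * Real.log (2 * 3 + 1) := y0_few H
    have t1 := mul_le_mul_of_nonneg_left log7 hk0
    linarith
  have a3 := tf_few H
  have h1 := mi_part hp0 a1 a2 a3
  have h2 := y0_full H hF
  have key := rf_core hp0 (W := Wc D J w i j r) (Y0 := Y0 D J w z i j r X C P ys) h1 h2
  obtain ⟨err0, herr0⟩ : ∃ err0 : ℝ, err0 =
      (10 + 20 * (k0 + k1) + 5 * (c * (k0 + k1)) + 3 * (k1 * k0) + 3 * (c * k0) +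
        k1 * (20 + 14 * k0 + C) + c * (24 + 14 * k0 + 8 * k1) +
        (2 * C + 4 * n * (C + 1) + 10 * n)) * F := ⟨_, rfl⟩
  have hF0 : 0 ≤ F := by linarith
  have key2 : (k0 : ℝ) * X * Real.log 2 ≤ CH (cond q E True) (Y0 D J w z i j r X C P ys)
      (fun ω => ((tv D J w z i j r X C S ys gs ω, fR J w X (tv D J w z i j r X C S ys gs ω)
        (vv D J w z i j r X C P ys gs ω)), Wc D J w i j r ω)) + err0 := by
    refine key.trans (add_le_add le_rfl ?_)
    have t0 : (3 : ℝ) * k0 * 1 ≤ 3 * k0 * F := mul_le_mul_of_nonneg_left F1 (by positivity)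
    have t1 : (3 * (c * (k0 + k1)) : ℝ) * 1 ≤ 3 * (c * (k0 + k1)) * F :=
      mul_le_mul_of_nonneg_left F1 (by positivity)
    have t2 : (k1 : ℝ) * (2 * (10 + 7 * k0) + C * z) ≤ k1 * (2 * (10 + 7 * k0) * F + C * F) := by
      refine mul_le_mul_of_nonneg_left ?_ hk1
      have s1 : 2 * (10 + 7 * (k0 : ℝ)) * 1 ≤ 2 * (10 + 7 * k0) * F :=
        mul_le_mul_of_nonneg_left F1 (by positivity)
      have s2 : C * z ≤ C * F := mul_le_mul_of_nonneg_left F2 (by linarith)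
      linarith
    have t3 : (3 : ℝ) * (k1 * k0) * 1 ≤ 3 * (k1 * k0) * F :=
      mul_le_mul_of_nonneg_left F1 (by positivity)
    have t4 : (3 : ℝ) * (c * k0) * 1 ≤ 3 * (c * k0) * F :=
      mul_le_mul_of_nonneg_left F1 (by positivity)
    have t5 : (c : ℝ) * (2 * (12 + 7 * k0 + 4 * k1)) * 1 ≤
        c * (2 * (12 + 7 * k0 + 4 * k1)) * F := mul_le_mul_of_nonneg_left F1 (by positivity)
    have t6 : 0 ≤ (c : ℝ) * (k0 + k1) * F := by positivity
    have t8 : 0 ≤ (k0 : ℝ) * F := by positivity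
    have t9 : 0 ≤ (k1 : ℝ) * F := by positivity
    rw [herr0]
    have t7 : (10 + 20 * (k0 + k1) + 5 * (c * (k0 + k1)) + 3 * (k1 * k0) + 3 * (c * k0) +
        k1 * (20 + 14 * k0 + C) + c * (24 + 14 * k0 + 8 * k1) +
        (2 * C + 4 * n * (C + 1) + 10 * n)) * F =
        4 * F + 3 * k0 * F + 3 * (c * (k0 + k1)) * F + 3 * (k1 * k0) * F + 3 * (c * k0) * F +
        k1 * (2 * (10 + 7 * k0) * F + C * F) + c * (2 * (12 + 7 * k0 + 4 * k1)) * F +
        (2 * C + 6 + 4 * n * (C + 1) + 14 * (k0 + k1) + 10 * n + 3 * k0) * F +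
        2 * (c * (k0 + k1) * F) + 6 * (k1 * F) := by ring
    rw [t7]
    linarith
  have he : 0 ≤ err0 := by
    rw [herr0]
    have : 0 ≤ C := by linarith
    positivity
  have fin := of_ev hq (Y0 D J w z i j r X C P ys)
    (fun ω => ((tv D J w z i j r X C S ys gs ω, fR J w X (tv D J w z i j r X C S ys gs ω)
        (vv D J w z i j r X C P ys gs ω)), Wc D J w i j r ω)) E H.pE he key2
  refine fin.trans (add_le_add le_rfl ?_)
  obtain ⟨b, hb⟩ : ∃ b : ℝ, b = Pb q (fun ω => ¬ E ω) := ⟨_, rfl⟩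
  rw [← hb] at F4 ⊢
  have hb0 : 0 ≤ b := by rw [hb]; exact Pb_nonneg hq.nonneg _
  have u1 : b * ((k0 : ℝ) * X * Real.log 2) ≤ k0 * F := by
    have : b * ((k0 : ℝ) * X * Real.log 2) = k0 * (X * b) * Real.log 2 := by ring
    rw [this]
    have s1 : (k0 : ℝ) * (X * b) ≤ k0 * F := mul_le_mul_of_nonneg_left F4 hk0
    have s2 : 0 ≤ (k0 : ℝ) * (X * b) := by positivity
    calc (k0 : ℝ) * (X * b) * Real.log 2 ≤ k0 * (X * b) * 1 :=
          mul_le_mul_of_nonneg_left hl s2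
      _ ≤ k0 * F := by rw [mul_one]; exact s1
  have u3 : 0 ≤ (k1 : ℝ) * F := by positivity
  rw [herr0]
  have u2 : (10 + 21 * (k0 + k1) + 5 * (c * (k0 + k1)) + 3 * (k1 * k0) + 3 * (c * k0) +
        k1 * (20 + 14 * k0 + C) + c * (24 + 14 * k0 + 8 * k1) +
        (2 * C + 4 * n * (C + 1) + 10 * n)) * F =
      (10 + 20 * (k0 + k1) + 5 * (c * (k0 + k1)) + 3 * (k1 * k0) + 3 * (c * k0) +
        k1 * (20 + 14 * k0 + C) + c * (24 + 14 * k0 + 8 * k1) +
        (2 * C + 4 * n * (C + 1) + 10 * n)) * F + k0 * F + k1 * F := by ring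
  rw [u2]
  linarith

end

/-- The error. -/
theorem err_F (A κ : ℝ) (z X : ℕ) (b : ℝ) : err A κ z X b = A * ((1 + κ) * z + X * b) := rfl

/-- **(LF)** -/
theorem lf_stmt : LFStmt := by
  intro n K K' c k0 k1 C₁ C
  refine ⟨14 + 20 * (k0 + k1 + c) + k1 * (43 + 34 * k0 + 2 * |C|) + 6 * (k1 * k0) +
        (2 * |C| + 4 * n * (|C| + 1) + 10 * n), by positivity, ?_⟩
  intro D J a₀ w₀ z M w i j r r2 r' r'' y a X lam gam κ q E P S ys gs H
  have hC : |C| = C := abs_of_nonneg (by linarith [H.Cg])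
  rw [hC, err_F]
  obtain ⟨F, hF⟩ : ∃ F : ℝ, F = (1 + κ) * z + X * Pb q (fun ω => ¬ E ω) := ⟨_, rfl⟩
  rw [← hF]
  have h1 := lf_key H hF
  refine h1.trans (add_le_add ?_ le_rfl)
  refine CH_mono_cond H.ok.isLaw.nonneg ?_
  intro ω ω' _ _ e
  exact Prod.ext (Prod.ext_iff.1 (Prod.ext_iff.1 e).2).1 (Prod.ext_iff.1 e).1

/-- **(RF)** -/
theorem rf_stmt : RFStmt := by
  intro n K K' c k0 k1 C₁ C
  refine ⟨10 + 21 * (k0 + k1) + 5 * (c * (k0 + k1)) + 3 * (k1 * k0) + 3 * (c * k0) +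
        k1 * (20 + 14 * k0 + |C|) + c * (24 + 14 * k0 + 8 * k1) +
        (2 * |C| + 4 * n * (|C| + 1) + 10 * n), by positivity, ?_⟩
  intro D J a₀ w₀ z M w i j r r2 r' r'' y a X lam gam κ q E P S ys gs H
  have hC : |C| = C := abs_of_nonneg (by linarith [H.Cg])
  rw [hC, err_F]
  obtain ⟨F, hF⟩ : ∃ F : ℝ, F = (1 + κ) * z + X * Pb q (fun ω => ¬ E ω) := ⟨_, rfl⟩
  rw [← hF]
  have h1 := rf_key H hF
  refine h1.trans (add_le_add ?_ le_rfl)
  refine CH_mono_cond H.ok.isLaw.nonneg ?_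
  intro ω ω' _ _ e
  have e1 := Prod.ext_iff.1 e
  exact Prod.ext (Prod.ext_iff.1 e1.2).1 e1.1

/-- **(YF)** -/
theorem yf_stmt : YFStmt := by
  intro n K K' c k0 k1 C₁ C
  refine ⟨(14 + 20 * (k0 + k1 + c) + k1 * (43 + 34 * k0 + 2 * |C|) + 6 * (k1 * k0) +
        (2 * |C| + 4 * n * (|C| + 1) + 10 * n)) +
      (10 + 21 * (k0 + k1) + 5 * (c * (k0 + k1)) + 3 * (k1 * k0) + 3 * (c * k0) +
        k1 * (20 + 14 * k0 + |C|) + c * (24 + 14 * k0 + 8 * k1) +
        (2 * |C| + 4 * n * (|C| + 1) + 10 * n)), by positivity, ?_⟩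
  intro D J a₀ w₀ z M w i j r r2 r' r'' y a X lam gam κ q E P S ys gs H
  have hC : |C| = C := abs_of_nonneg (by linarith [H.Cg])
  rw [hC, err_F]
  obtain ⟨F, hF⟩ : ∃ F : ℝ, F = (1 + κ) * z + X * Pb q (fun ω => ¬ E ω) := ⟨_, rfl⟩
  rw [← hF]
  have hq := H.ok.isLaw.nonneg
  have h1 := lf_key H hF
  have h2 := rf_key H hF
  have b1 : CH q (L0 D J w z i j r X C P ys)
      (fun ω => (V0 D J w z i j r X C P ys gs ω, Wc D J w i j r ω)) ≤
      CH q (L0 D J w z i j r X C P ys)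
      (fun ω => (Y0 D J w z i j r X C P ys ω, Wc D J w i j r ω)) :=
    CH_mono_cond hq fun ω ω' _ _ e => by
      have e1 := Prod.ext_iff.1 e
      exact Prod.ext (Prod.ext_iff.1 e1.1).1 e1.2
  have b2 : CH q (Y0 D J w z i j r X C P ys)
      (fun ω => ((tv D J w z i j r X C S ys gs ω, fR J w X (tv D J w z i j r X C S ys gs ω)
        (vv D J w z i j r X C P ys gs ω)), Wc D J w i j r ω)) ≤
      CH q (Y0 D J w z i j r X C P ys) (Wc D J w i j r) :=
    CH_mono_cond hq fun ω ω' _ _ e => (Prod.ext_iff.1 e).2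
  have b3 := CH_chain hq (L0 D J w z i j r X C P ys) (Y0 D J w z i j r X C P ys)
    (Wc D J w i j r)
  have b4 : CH q (fun ω => (L0 D J w z i j r X C P ys ω, Y0 D J w z i j r X C P ys ω))
      (Wc D J w i j r) ≤ CH q (yv D J w z i j r X C P ys)
      (fun ω => (cb D J w i j r ω, D.T ω)) := by
    refine CH_mono_left hq ?_
    intro ω ω' _ _ e
    have e1 : yv D J w z i j r X C P ys ω = yv D J w z i j r X C P ys ω' :=
      (Prod.ext_iff.1 e).1
    refine Prod.ext ?_ ?_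
    · funext l
      exact congrFun e1 (Fin.natAdd k0 l)
    · funext l
      exact congrFun e1 (Fin.castAdd k1 l)
  have b5 : ((k0 : ℝ) + k1) * X * Real.log 2 =
      k0 * X * Real.log 2 + k1 * X * Real.log 2 := by ring
  rw [b5, add_mul]
  linarith

end Pool.P546
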