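import Pool.Agent.H46.P5.Few

/-!
# P5: (LF), (YF), (RF), the entropies
-/

set_option autoImplicit false

namespace Pool.P546

open Finset Real
open Pool.Agent.H49.Ent Pool.Agent.H32.Dense Pool.STAT Pool.P5 Pool.MIC
open Pool.STK hiding bb
open Pool.P4 (t0 rt pp ze zt z0 be cl1 dg dgp Ry cb LLC tq)
open Pool.BFL (Pb)

section

variable {D : NDat2} {n K K' J a₀ w₀ z M w i j r r2 r' r'' y a X : ℕ} {lam gam : ℕ → ℝ}
  {κ C₁ C : ℝ} {q : D.Ω → ℝ} {E : D.Ω → Prop} {P : D.Γ × D.Γ → ℕ → PN}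
  {S : Slo D} {c k0 k1 : ℕ} {ys : Fin (k0 + k1) → ℕ} {gs : Fin c → ℕ}

/-- The context with the exact time. -/
def Wc (D : NDat2) (J w i j r : ℕ) (ω : D.Ω) : ((D.Γ × D.Γ) × ℕ) × ℕ :=
  (cb D J w i j r ω, D.T ω)

/-- The constant slow coordinates. -/
noncomputable def Y0 (D : NDat2) (J w z i j r X : ℕ) (C : ℝ) (P : D.Γ × D.Γ → ℕ → PN)
    {k0 k1 : ℕ} (ys : Fin (k0 + k1) → ℕ) (ω : D.Ω) (b : Fin k0) : ℤ :=
  yv D J w z i j r X C P ys ω (Fin.castAdd k1 b)

/-- The affine slow coordinates. -/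
noncomputable def L0 (D : NDat2) (J w z i j r X : ℕ) (C : ℝ) (P : D.Γ × D.Γ → ℕ → PN)
    {k0 k1 : ℕ} (ys : Fin (k0 + k1) → ℕ) (ω : D.Ω) (l : Fin k1) : ℤ :=
  yv D J w z i j r X C P ys ω (Fin.natAdd k0 l)

/-- The constant slow coordinates, at the exact time. -/
noncomputable def Yt (D : NDat2) (z i j r X : ℕ) (C : ℝ) (P : D.Γ × D.Γ → ℕ → PN)
    {k0 k1 : ℕ} (ys : Fin (k0 + k1) → ℕ) (ω : D.Ω) (b : Fin k0) : ℤ :=
  ztv D z i j r X C P ys ω (Fin.castAdd k1 b)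

/-- The affine slow coordinates, at the exact time. -/
noncomputable def Lt (D : NDat2) (z i j r X : ℕ) (C : ℝ) (P : D.Γ × D.Γ → ℕ → PN)
    {k0 k1 : ℕ} (ys : Fin (k0 + k1) → ℕ) (ω : D.Ω) (l : Fin k1) : ℤ :=
  ztv D z i j r X C P ys ω (Fin.natAdd k0 l)

/-- The own leaf of the affine coordinates. -/
noncomputable def La (D : NDat2) (J w z i j r X : ℕ) (C : ℝ) (P : D.Γ × D.Γ → ℕ → PN)
    (S : Slo D) {c k0 k1 : ℕ} (ys : Fin (k0 + k1) → ℕ) (gs : Fin c → ℕ) (ω : D.Ω)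
    (l : Fin k1) : ℤ :=
  ⌊laR J w X (tv D J w z i j r X C S ys gs ω) (vv D J w z i j r X C P ys gs ω) l⌋

/-- The data of weight 0. -/
noncomputable def V0 (D : NDat2) (J w z i j r X : ℕ) (C : ℝ) (P : D.Γ × D.Γ → ℕ → PN)
    {c k0 k1 : ℕ} (ys : Fin (k0 + k1) → ℕ) (gs : Fin c → ℕ) (ω : D.Ω) :
    (Fin k0 → ℤ) × ((Fin k1 → ℤ) × (Fin c → ℤ)) :=
  (Y0 D J w z i j r X C P ys ω, (mv D J w z i j r X C P ys ω, be2v D J w z i j r X C P gs ω))

theorem ztv_rng {k : ℕ} (zs : Fin k → ℕ) (ω : D.Ω) (l : Fin k) :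
    0 ≤ ztv D z i j r X C P zs ω l ∧ ztv D z i j r X C P zs ω l < 2 ^ X := by
  have h := Pool.P4E.dgp_range X ((ze D i j r P ω (zs l) + Ry z C) / (2 * Ry z C))
  unfold ztv
  exact ⟨h.1, by linarith [h.2]⟩

theorem yv_rng (ω : D.Ω) (l : Fin (k0 + k1)) :
    0 ≤ yv D J w z i j r X C P ys ω l ∧ yv D J w z i j r X C P ys ω l < 2 ^ X := by
  have h := Pool.P4E.dgp_range X ((z0 D J w i j r P ω (ys l) + Ry z C) / (2 * Ry z C))
  unfold yv
  exact ⟨h.1, by linarith [h.2]⟩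

variable (H : Hyp D n K K' J a₀ w₀ z M w i j r r2 r' r'' y a X lam gam κ C₁ C q E P S ys gs)

include H

/-- The affine coordinates at the exact time, given the leaf. -/
theorem lt_few : CH (cond q E True) (Lt D z i j r X C P ys)
    (fun ω => (La D J w z i j r X C P S ys gs ω, (Yt D z i j r X C P ys ω,
      (Elv D X S ys ω, Wc D J w i j r ω)))) ≤
      k1 * Real.log (2 * ((11 + 10 * k0) * Ry z C) + 1) := by
  have h := few_law (plaw H) (Lt D z i j r X C P ys)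
    (fun ω => (La D J w z i j r X C P S ys gs ω, (Yt D z i j r X C P ys ω,
      (Elv D X S ys ω, Wc D J w i j r ω)))) (m := (11 + 10 * k0) * Ry z C) (by
      intro ω ω' p p' e l
      obtain ⟨g1, g2⟩ := ppos H p
      obtain ⟨g3, g4⟩ := ppos H p'
      have e1 := Prod.ext_iff.1 e
      have e2 := Prod.ext_iff.1 e1.2
      have e3 := Prod.ext_iff.1 e2.2
      have eLa : ⌊laR J w X (tv D J w z i j r X C S ys gs ω)
          (vv D J w z i j r X C P ys gs ω) l⌋ = ⌊laR J w X (tv D J w z i j r X C S ys gs ω')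
          (vv D J w z i j r X C P ys gs ω') l⌋ := congrFun e1.1 l
      have eY : ∀ b, Yt D z i j r X C P ys ω b = Yt D z i j r X C P ys ω' b := congrFun e2.1
      have eE : ∀ b : Fin k0, Elv D X S ys ω l b = Elv D X S ys ω' l b :=
        congrFun (congrFun e3.1 l)
      have hN : (0 : ℝ) < 2 ^ X := by positivity
      obtain ⟨N, hNN⟩ : ∃ N : ℝ, N = 2 ^ X := ⟨_, rfl⟩
      have hR := Ry_one' (z := z) H.Cg
      obtain ⟨R, hRR⟩ : ∃ R, R = Ry z C := ⟨_, rfl⟩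
      have n1 := laR_near H g1 g2 l
      have n2 := laR_near H g3 g4 l
      have hR0 : 0 < R := by linarith
      -- the slopes
      have d1 : ∀ b : Fin k0, |N * S.El ω (ys (Fin.natAdd k0 l)) (ys (Fin.castAdd k1 b)) -
          N * S.El ω' (ys (Fin.natAdd k0 l)) (ys (Fin.castAdd k1 b))| ≤ 1 := by
        intro b
        have h1 : ⌊(2 : ℝ) ^ X * S.El ω (ys (Fin.natAdd k0 l)) (ys (Fin.castAdd k1 b))⌋ =
          ⌊(2 : ℝ) ^ X * S.El ω' (ys (Fin.natAdd k0 l)) (ys (Fin.castAdd k1 b))⌋ := eE b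
        have := Int.abs_sub_lt_one_of_floor_eq_floor h1
        rw [hNN]
        exact this.le
      -- the constant coordinates
      have d2 : ∀ b : Fin k0, |N / (2 * R) * ze D i j r P ω (ys (Fin.castAdd k1 b)) -
          N / (2 * R) * ze D i j r P ω' (ys (Fin.castAdd k1 b))| ≤ 2 := by
        intro b
        have h1 := dgp_val (X := X) (R := Ry z C) (by rw [← hRR]; exact hR0)
          (H.geo.bz ω g1 g2 _ (ys_rng H (Fin.castAdd k1 b)).1 (ys_rng H (Fin.castAdd k1 b)).2)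
        have h2 := dgp_val (X := X) (R := Ry z C) (by rw [← hRR]; exact hR0)
          (H.geo.bz ω' g3 g4 _ (ys_rng H (Fin.castAdd k1 b)).1 (ys_rng H (Fin.castAdd k1 b)).2)
        have h3 : dgp X ((ze D i j r P ω (ys (Fin.castAdd k1 b)) + Ry z C) / (2 * Ry z C)) =
          dgp X ((ze D i j r P ω' (ys (Fin.castAdd k1 b)) + Ry z C) / (2 * Ry z C)) := eY b
        rw [h3] at h1
        rw [← hNN, ← hRR] at h1 h2
        obtain ⟨A, hA⟩ : ∃ A, A = ze D i j r P ω (ys (Fin.castAdd k1 b)) := ⟨_, rfl⟩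
        obtain ⟨A', hA'⟩ : ∃ A', A' = ze D i j r P ω' (ys (Fin.castAdd k1 b)) := ⟨_, rfl⟩
        obtain ⟨m, hm⟩ : ∃ m : ℝ, m = (dgp X ((ze D i j r P ω' (ys (Fin.castAdd k1 b)) + R) /
          (2 * R)) : ℝ) := ⟨_, rfl⟩
        rw [← hm, ← hA] at h1
        rw [← hm, ← hA'] at h2
        rw [← hA, ← hA']
        have t1 : N * ((A + R) / (2 * R)) = N / (2 * R) * A + N / 2 := by field_simp
        have t2 : N * ((A' + R) / (2 * R)) = N / (2 * R) * A' + N / 2 := by field_simp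
        rw [t1] at h1
        rw [t2] at h2
        rw [abs_le] at h1 h2 ⊢
        constructor <;> linarith only [h1.1, h1.2, h2.1, h2.2]
      rw [← hNN] at hN
      have hla : ∀ ω : D.Ω, la D n i j r gam P S.El ω (ys (Fin.natAdd k0 l)) =
          ze D i j r P ω (ys (Fin.natAdd k0 l)) - ∑ b : Fin k0,
            S.El ω (ys (Fin.natAdd k0 l)) (ys (Fin.castAdd k1 b)) *
              ze D i j r P ω (ys (Fin.castAdd k1 b)) := by
        intro ω
        unfold la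
        rw [sum_flt (p := sl0 gam n) (f := fun b : Fin k0 => ys (Fin.castAdd k1 b)) H.ys0
          (fun b => (H.ys0 b).2.1) (fun b b' hh => Fin.castAdd_injective k0 k1 (H.ys_in hh))
          H.ys_on0 (fun k => S.El ω (ys (Fin.natAdd k0 l)) k * ze D i j r P ω k)]
      rw [hla] at n1 n2
      have s2 : |∑ b : Fin k0, N / (2 * R) * (S.El ω (ys (Fin.natAdd k0 l))
          (ys (Fin.castAdd k1 b)) * R) - ∑ b : Fin k0, N / (2 * R) *
          (S.El ω' (ys (Fin.natAdd k0 l)) (ys (Fin.castAdd k1 b)) * R)| ≤ k0 * 1 := by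
        refine sum_near fun b => ?_
        have h1 := d1 b
        have t1 : N / (2 * R) * (S.El ω (ys (Fin.natAdd k0 l)) (ys (Fin.castAdd k1 b)) * R) -
            N / (2 * R) * (S.El ω' (ys (Fin.natAdd k0 l)) (ys (Fin.castAdd k1 b)) * R) =
            (N * S.El ω (ys (Fin.natAdd k0 l)) (ys (Fin.castAdd k1 b)) -
              N * S.El ω' (ys (Fin.natAdd k0 l)) (ys (Fin.castAdd k1 b))) / 2 := by field_simp
        rw [t1, abs_div, abs_of_pos (by norm_num : (0 : ℝ) < 2)]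
        linarith
      have s1 : |∑ b : Fin k0, N / (2 * R) * (S.El ω (ys (Fin.natAdd k0 l))
          (ys (Fin.castAdd k1 b)) * ze D i j r P ω (ys (Fin.castAdd k1 b))) -
          ∑ b : Fin k0, N / (2 * R) * (S.El ω' (ys (Fin.natAdd k0 l))
          (ys (Fin.castAdd k1 b)) * ze D i j r P ω' (ys (Fin.castAdd k1 b)))| ≤
          k0 * (1 + 2 * R) := by
        refine sum_near fun b => ?_
        have h1 := d1 b
        have h2 := d2 b
        have h3 := H.geo.bz ω g1 g2 _ (ys_rng H (Fin.castAdd k1 b)).1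
          (ys_rng H (Fin.castAdd k1 b)).2
        have h4 : |S.El ω' (ys (Fin.natAdd k0 l)) (ys (Fin.castAdd k1 b))| ≤ R := by
          rw [hRR]
          exact H.geo.bEl ω' _ _
        have h3' : |ze D i j r P ω (ys (Fin.castAdd k1 b))| ≤ R := by
          rw [hRR]
          exact h3
        obtain ⟨A, hA⟩ : ∃ A, A = ze D i j r P ω (ys (Fin.castAdd k1 b)) := ⟨_, rfl⟩
        obtain ⟨A', hA'⟩ : ∃ A', A' = ze D i j r P ω' (ys (Fin.castAdd k1 b)) := ⟨_, rfl⟩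
        obtain ⟨B, hB⟩ : ∃ B, B = S.El ω (ys (Fin.natAdd k0 l)) (ys (Fin.castAdd k1 b)) :=
          ⟨_, rfl⟩
        obtain ⟨B', hB'⟩ : ∃ B', B' = S.El ω' (ys (Fin.natAdd k0 l)) (ys (Fin.castAdd k1 b)) :=
          ⟨_, rfl⟩
        rw [← hA] at h3'
        rw [← hA, ← hA'] at h2
        rw [← hB, ← hB'] at h1
        rw [← hB'] at h4
        rw [← hA, ← hA', ← hB, ← hB']
        have t1 : N / (2 * R) * (B * A) - N / (2 * R) * (B' * A') =
            (N * B - N * B') * (A / (2 * R)) + B' * (N / (2 * R) * A - N / (2 * R) * A') := by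
          field_simp
          ring
        rw [t1]
        refine (abs_add_le _ _).trans (add_le_add ?_ ?_)
        · rw [abs_mul]
          have t2 : |A / (2 * R)| ≤ 1 := by
            rw [abs_div, abs_of_pos (by linarith : 0 < 2 * R), div_le_one (by linarith)]
            linarith
          exact mul_le_one₀ h1 (abs_nonneg _) t2
        · rw [abs_mul]
          calc _ ≤ R * 2 := mul_le_mul h4 h2 (abs_nonneg _) hR0.le
            _ = 2 * R := mul_comm _ _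
      have t0' := Int.abs_sub_lt_one_of_floor_eq_floor eLa
      obtain ⟨V, hV⟩ : ∃ V, V = laR J w X (tv D J w z i j r X C S ys gs ω)
        (vv D J w z i j r X C P ys gs ω) l := ⟨_, rfl⟩
      obtain ⟨V', hV'⟩ : ∃ V', V' = laR J w X (tv D J w z i j r X C S ys gs ω')
        (vv D J w z i j r X C P ys gs ω') l := ⟨_, rfl⟩
      rw [← hV, ← hNN, ← hRR] at n1
      rw [← hV', ← hNN, ← hRR] at n2
      rw [← hV, ← hV'] at t0'
      rw [← Finset.mul_sum, ← Finset.mul_sum] at s1 s2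
      obtain ⟨A1, hA1⟩ : ∃ A1 : ℝ, A1 = ∑ b : Fin k0, S.El ω (ys (Fin.natAdd k0 l))
        (ys (Fin.castAdd k1 b)) * ze D i j r P ω (ys (Fin.castAdd k1 b)) := ⟨_, rfl⟩
      obtain ⟨A1', hA1'⟩ : ∃ A1' : ℝ, A1' = ∑ b : Fin k0, S.El ω' (ys (Fin.natAdd k0 l))
        (ys (Fin.castAdd k1 b)) * ze D i j r P ω' (ys (Fin.castAdd k1 b)) := ⟨_, rfl⟩
      obtain ⟨A2, hA2⟩ : ∃ A2 : ℝ, A2 = ∑ b : Fin k0, S.El ω (ys (Fin.natAdd k0 l))
        (ys (Fin.castAdd k1 b)) * R := ⟨_, rfl⟩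
      obtain ⟨A2', hA2'⟩ : ∃ A2' : ℝ, A2' = ∑ b : Fin k0, S.El ω' (ys (Fin.natAdd k0 l))
        (ys (Fin.castAdd k1 b)) * R := ⟨_, rfl⟩
      rw [← hA1, ← hA2] at n1
      rw [← hA1', ← hA2'] at n2
      rw [← hA1, ← hA1'] at s1
      rw [← hA2, ← hA2'] at s2
      obtain ⟨ζ, hζ⟩ : ∃ ζ, ζ = ze D i j r P ω (ys (Fin.natAdd k0 l)) := ⟨_, rfl⟩
      obtain ⟨ζ', hζ'⟩ : ∃ ζ', ζ' = ze D i j r P ω' (ys (Fin.natAdd k0 l)) := ⟨_, rfl⟩
      rw [← hζ] at n1
      rw [← hζ'] at n2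
      have hk : (0 : ℝ) ≤ k0 := Nat.cast_nonneg _
      have u1 : N / (2 * R) * (ζ - A1 + R - A2) = N / (2 * R) * ζ - N / (2 * R) * A1 + N / 2 -
          N / (2 * R) * A2 := by field_simp
      have u2 : N / (2 * R) * (ζ' - A1' + R - A2') = N / (2 * R) * ζ' - N / (2 * R) * A1' +
          N / 2 - N / (2 * R) * A2' := by field_simp
      rw [u1] at n1
      rw [u2] at n2
      have u3 : |N / (2 * R) * ζ - N / (2 * R) * ζ'| ≤
          1 + 2 * ((4 + 3 * k0) * R) + k0 * (1 + 2 * R) + k0 := by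
        rw [abs_lt] at t0'
        rw [abs_le] at n1 n2 s1 s2 ⊢
        constructor <;> linarith only [n1.1, n1.2, n2.1, n2.2, s1.1, s1.2, s2.1, s2.2, t0'.1,
          t0'.2]
      have u4 : (2 : ℝ) ^ X * |(ζ + Ry z C) / (2 * Ry z C) - (ζ' + Ry z C) / (2 * Ry z C)| ≤
          1 + 2 * ((4 + 3 * k0) * R) + k0 * (1 + 2 * R) + k0 := by
        rw [← hRR, ← hNN]
        refine le_trans (le_of_eq ?_) u3
        have : (ζ + R) / (2 * R) - (ζ' + R) / (2 * R) = (ζ - ζ') / (2 * R) := by ring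
        rw [this, abs_div, abs_of_pos (by linarith : 0 < 2 * R), ← mul_sub, abs_mul,
          abs_of_pos (by positivity : 0 < N / (2 * R))]
        ring
      have u5 := Pool.P4E.dgp_sub u4
      have u6 : (k0 : ℝ) * 1 ≤ k0 * R := mul_le_mul_of_nonneg_left (by linarith) hk
      rw [hζ, hζ'] at u5
      have u7 : 1 + 2 * ((4 + 3 * k0) * R) + k0 * (1 + 2 * R) + k0 + 2 ≤ (11 + 10 * k0) * R := by
        nlinarith only [u6, hR, hk, hRR]
      rw [← hRR]
      rw [← hRR] at u5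
      unfold Lt ztv
      rw [← hRR]
      exact u5.trans u7)
  rwa [Fintype.card_fin] at h

/-- The leaf is a function of the positions and of the data of weight 0. -/
theorem la_det : CH (cond q E True) (La D J w z i j r X C P S ys gs)
    (fun ω => (L0 D J w z i j r X C P ys ω, (Elv D X S ys ω,
      (V0 D J w z i j r X C P ys gs ω, Wc D J w i j r ω)))) ≤ 0 := by
  refine le_of_eq (CH_eq_zero (plaw H).nonneg ?_)
  intro ω ω' _ _ e
  have e1 := Prod.ext_iff.1 e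
  have e2 := Prod.ext_iff.1 e1.2
  have e3 := Prod.ext_iff.1 e2.2
  have e4 := Prod.ext_iff.1 e3.1
  have e5 := Prod.ext_iff.1 e4.2
  have e6 := Prod.ext_iff.1 e3.2
  have eT : D.T ω = D.T ω' := e6.2
  have eM : mv D J w z i j r X C P ys ω = mv D J w z i j r X C P ys ω' := e5.1
  have eE : Elv D X S ys ω = Elv D X S ys ω' := e2.1
  funext l
  show ⌊(yv D J w z i j r X C P ys ω (Fin.natAdd k0 l) : ℝ) + (tq J w X (D.T ω) : ℝ) *
        ((mv D J w z i j r X C P ys ω l : ℝ) / 2 ^ X) -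
        ∑ b : Fin k0, (Elv D X S ys ω l b : ℝ) / 2 ^ X *
          (yv D J w z i j r X C P ys ω (Fin.castAdd k1 b) : ℝ)⌋ =
    ⌊(yv D J w z i j r X C P ys ω' (Fin.natAdd k0 l) : ℝ) + (tq J w X (D.T ω') : ℝ) *
        ((mv D J w z i j r X C P ys ω' l : ℝ) / 2 ^ X) -
        ∑ b : Fin k0, (Elv D X S ys ω' l b : ℝ) / 2 ^ X *
          (yv D J w z i j r X C P ys ω' (Fin.castAdd k1 b) : ℝ)⌋
  have a1 : yv D J w z i j r X C P ys ω (Fin.natAdd k0 l) =
    yv D J w z i j r X C P ys ω' (Fin.natAdd k0 l) := congrFun e1.1 l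
  have a2 : ∀ b : Fin k0, yv D J w z i j r X C P ys ω (Fin.castAdd k1 b) =
    yv D J w z i j r X C P ys ω' (Fin.castAdd k1 b) := congrFun e4.1
  rw [a1, eT, eM, eE]
  simp only [a2]

/-- Fullness at the exact time, given the event. -/
theorem zt_full {F : ℝ} (hF : F = (1 + κ) * z + X * Pb q (fun ω => ¬ E ω)) :
    ((k0 : ℝ) + k1) * X * Real.log 2 ≤ CH (cond q E True) (ztv D z i j r X C P ys)
      (Wc D J w i j r) + (2 * C + 6 + 4 * n * (C + 1) + 14 * (k0 + k1) + 10 * n) * F := by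
  have hq := H.ok.isLaw
  have h1 := ztv_full H ys H.ys_in H.ys_sl
  obtain ⟨b, hb⟩ : ∃ b : ℝ, b = Pb q (fun ω => ¬ E ω) := ⟨_, rfl⟩
  have b0 : 0 ≤ b := by rw [hb]; exact Pb_nonneg hq.nonneg _
  have b1 : b ≤ 1 := by
    have := Pb_not hq.sum_one E
    have := Pb_nonneg hq.nonneg E
    linarith
  rw [← hb] at h1 hF
  have hC := H.Cg
  have hz : (1 : ℝ) ≤ z := by exact_mod_cast H.z1
  have hκ := H.κ0
  have hX : (0 : ℝ) ≤ X := Nat.cast_nonneg _
  have hn : (0 : ℝ) ≤ n := Nat.cast_nonneg _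
  have hk0 : (0 : ℝ) ≤ k0 := Nat.cast_nonneg _
  have hk1 : (0 : ℝ) ≤ k1 := Nat.cast_nonneg _
  have hXb : 0 ≤ (X : ℝ) * b := mul_nonneg hX b0
  have hκz : 0 ≤ κ * z := mul_nonneg hκ (by linarith)
  have hzF : (z : ℝ) ≤ F := by rw [hF]; linarith
  have hXF : (X : ℝ) * b ≤ F := by rw [hF]; linarith
  have h2 := full_ev hq (ztv D z i j r X C P ys) (Wc D J w i j r) (fun ω _ l => ztv_rng ys ω l) E
    H.pE (e := C * z + 2 + n * (2 * (C * z) + 2) + ((k0 + k1 : ℕ) : ℝ) * 2 +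
      (n + ((k0 + k1 : ℕ) : ℝ)) * ((X + 4) * b)) (by
        have : 0 ≤ ((k0 + k1 : ℕ) : ℝ) := Nat.cast_nonneg _
        have : 0 ≤ C * z := by positivity
        have : 0 ≤ ((X : ℝ) + 4) * b := mul_nonneg (by linarith) b0
        positivity) h1
  push_cast at h2
  refine h2.trans (add_le_add le_rfl ?_)
  have hl : Real.log 2 ≤ 1 := by
    have := Real.log_two_lt_d9
    linarith
  have t1 : C * z ≤ C * F := mul_le_mul_of_nonneg_left hzF (by linarith)
  have t2 : (n : ℝ) * (2 * (C * z) + 2) ≤ n * (2 * (C * F) + 2 * F) :=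
    mul_le_mul_of_nonneg_left (by linarith) hn
  have t3 : ((X : ℝ) + 4) * b ≤ 5 * F := by linarith
  have t4 : ((n : ℝ) + (k0 + k1)) * ((X + 4) * b) ≤ (n + (k0 + k1)) * (5 * F) :=
    mul_le_mul_of_nonneg_left t3 (by linarith)
  have t5 : ((k0 : ℝ) + k1) * 1 ≤ (k0 + k1) * F :=
    mul_le_mul_of_nonneg_left (by linarith) (by linarith)
  have t6 : (2 * C + 6 + 4 * n * (C + 1) + 14 * (k0 + k1) + 10 * n) * F =
      2 * (C * F) + 6 * F + 2 * (n * (2 * (C * F) + 2 * F)) + 4 * ((k0 + k1) * F) +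
        2 * ((n + (k0 + k1)) * (5 * F)) := by ring
  rw [t6]
  linarith

end

end Pool.P546
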