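import Pool.Agent.H12.P5.Stm
import Pool.Agent.H16.P4.Prp
import Pool.Agent.H89.P4.H2

/-!
# P5: the digits of the closed leaf

`laR_near`, `wR_near`: the digit formulas `laR`, `wR` are near to the heights `la`, `wl` over the
closed leaf.
-/

set_option autoImplicit false

namespace Pool.P546

open Finset Real
open Pool.P5
open Pool.P4 (t0 rt pp bb ze zt z0 be cl1 dg dgp Ry cb LLC tq)

/-! ### Arithmetic -/

theorem prod_near {x x₀ y y₀ a b B Y : ℝ} (h1 : |x - x₀| ≤ a) (h2 : |y| ≤ Y) (h3 : |x₀| ≤ B)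
    (h4 : |y - y₀| ≤ b) : |x * y - x₀ * y₀| ≤ a * Y + B * b := by
  have e : x * y - x₀ * y₀ = (x - x₀) * y + x₀ * (y - y₀) := by ring
  rw [e]
  refine (abs_add_le _ _).trans (add_le_add ?_ ?_)
  · rw [abs_mul]
    exact mul_le_mul h1 h2 (abs_nonneg _) ((abs_nonneg _).trans h1)
  · rw [abs_mul]
    exact mul_le_mul h3 h4 (abs_nonneg _) ((abs_nonneg _).trans h3)

theorem sum_near {k : ℕ} {f g : Fin k → ℝ} {a : ℝ} (h : ∀ i, |f i - g i| ≤ a) :
    |∑ i, f i - ∑ i, g i| ≤ k * a := by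
  rw [← Finset.sum_sub_distrib]
  calc _ ≤ ∑ _i : Fin k, a := (Finset.abs_sum_le_sum_abs _ _).trans
        (Finset.sum_le_sum fun i _ => h i)
    _ = _ := by rw [Finset.sum_const, Finset.card_univ, Fintype.card_fin, nsmul_eq_mul]

/-- The height over the leaf, digits. -/
theorem la_arith {k : ℕ} {N R zl bl ρ tt yl m : ℝ} {El zk ya e : Fin k → ℝ} (hN : 0 < N)
    (hR : 1 ≤ R) (h1 : |yl - N * ((zl + R) / (2 * R))| ≤ 1) (h2 : |m - N * (bl / (2 * R))| ≤ 1)
    (hm : |m| ≤ N) (hρ : |ρ| ≤ 1) (ht : |tt - N * ρ| ≤ 1) (h3 : ∀ a, |e a - N * El a| ≤ 1)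
    (h4 : ∀ a, |ya a - N * ((zk a + R) / (2 * R))| ≤ 1) (h5 : ∀ a, |El a| ≤ R)
    (h6 : ∀ a, |ya a| ≤ N) :
    |(yl + tt * (m / N) - ∑ a, e a / N * ya a) -
      N / (2 * R) * (zl + R + ρ * bl - ∑ a, El a * (zk a + R))| ≤ 3 + k * (1 + R) := by
  have hR0 : 0 < R := by linarith
  have b1 : |tt * (m / N) - N * ρ * (bl / (2 * R))| ≤ 2 := by
    have c1 : |m / N| ≤ 1 := by
      rw [abs_div, abs_of_pos hN, div_le_one hN]
      exact hm
    have c2 : |m / N - bl / (2 * R)| ≤ 1 / N := by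
      have : m / N - bl / (2 * R) = (m - N * (bl / (2 * R))) / N := by field_simp
      rw [this, abs_div, abs_of_pos hN]
      exact div_le_div_of_nonneg_right h2 hN.le
    have c3 : |N * ρ| ≤ N := by
      rw [abs_mul, abs_of_pos hN]
      exact mul_le_of_le_one_right hN.le hρ
    have c4 := prod_near ht c1 c3 c2
    have c5 : 1 * 1 + N * (1 / N) = 2 := by field_simp; norm_num
    rw [c5] at c4
    exact c4
  have b2 : |∑ a, e a / N * ya a - ∑ a, El a * (N * ((zk a + R) / (2 * R)))| ≤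
      k * (1 + R) := by
    refine sum_near fun a => ?_
    have c2 : |e a / N - El a| ≤ 1 / N := by
      have : e a / N - El a = (e a - N * El a) / N := by field_simp
      rw [this, abs_div, abs_of_pos hN]
      exact div_le_div_of_nonneg_right (h3 a) hN.le
    have c4 := prod_near c2 (h6 a) (h5 a) (h4 a)
    have c5 : 1 / N * N + R * 1 = 1 + R := by field_simp
    rw [c5] at c4
    exact c4
  have b3 : N / (2 * R) * (zl + R + ρ * bl - ∑ a, El a * (zk a + R)) =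
      N * ((zl + R) / (2 * R)) + N * ρ * (bl / (2 * R)) -
        ∑ a, El a * (N * ((zk a + R) / (2 * R))) := by
    have c1 : ∑ a, El a * (N * ((zk a + R) / (2 * R))) =
        N / (2 * R) * ∑ a, El a * (zk a + R) := by
      rw [Finset.mul_sum]
      refine Finset.sum_congr rfl fun a _ => ?_
      ring
    rw [c1]
    ring
  rw [b3]
  rw [abs_le] at h1 b1 b2 ⊢
  constructor <;> linarith only [h1.1, h1.2, b1.1, b1.2, b2.1, b2.2]

/-- The velocity over the leaf, digits. -/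
theorem w_arith {k l : ℕ} {N R G B1 B2 ρ tt b c : ℝ} {Ev zk ya e : Fin k → ℝ}
    {Sl Ml s m : Fin l → ℝ} (hN : 0 < N) (hR : 1 ≤ R) (hG : 0 < G)
    (h1 : |b - N * (B1 / G)| ≤ 1) (h2 : |c - N * (B2 / G)| ≤ 1) (hc : |c| ≤ N)
    (hρ : |ρ| ≤ 1) (ht : |tt - N * ρ| ≤ 1)
    (h3 : ∀ a, |e a - N * (Ev a * (2 * R) / G)| ≤ 1)
    (h4 : ∀ a, |ya a - N * ((zk a + R) / (2 * R))| ≤ 1)
    (h5 : ∀ a, |Ev a * (2 * R) / G| ≤ 1) (h6 : ∀ a, |ya a| ≤ N)
    (g3 : ∀ a, |s a - N * (Sl a * (2 * R) / G)| ≤ 1)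
    (g4 : ∀ a, |m a - N * (Ml a / (2 * R))| ≤ 1)
    (g5 : ∀ a, |Sl a * (2 * R) / G| ≤ 1) (g6 : ∀ a, |m a| ≤ N) :
    |(b + 2 * tt * (c / N) - ∑ a, e a / N * ya a - ∑ a, s a / N * m a) -
      N / G * (B1 + 2 * ρ * B2 - ∑ a, Ev a * (zk a + R) - ∑ a, Sl a * Ml a)| ≤
        5 + 2 * k + 2 * l := by
  have hR0 : 0 < R := by linarith
  have b1 : |tt * (c / N) - N * ρ * (B2 / G)| ≤ 2 := by
    have c1 : |c / N| ≤ 1 := by
      rw [abs_div, abs_of_pos hN, div_le_one hN]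
      exact hc
    have c2 : |c / N - B2 / G| ≤ 1 / N := by
      have : c / N - B2 / G = (c - N * (B2 / G)) / N := by field_simp
      rw [this, abs_div, abs_of_pos hN]
      exact div_le_div_of_nonneg_right h2 hN.le
    have c3 : |N * ρ| ≤ N := by
      rw [abs_mul, abs_of_pos hN]
      exact mul_le_of_le_one_right hN.le hρ
    have c4 := prod_near ht c1 c3 c2
    have c5 : 1 * 1 + N * (1 / N) = 2 := by field_simp; norm_num
    rw [c5] at c4
    exact c4
  have b2 : |∑ a, e a / N * ya a - ∑ a, Ev a * (2 * R) / G * (N * ((zk a + R) / (2 * R)))| ≤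
      k * 2 := by
    refine sum_near fun a => ?_
    have c2 : |e a / N - Ev a * (2 * R) / G| ≤ 1 / N := by
      have : e a / N - Ev a * (2 * R) / G = (e a - N * (Ev a * (2 * R) / G)) / N := by
        field_simp
      rw [this, abs_div, abs_of_pos hN]
      exact div_le_div_of_nonneg_right (h3 a) hN.le
    have c4 := prod_near c2 (h6 a) (h5 a) (h4 a)
    have c5 : 1 / N * N + 1 * 1 = 2 := by field_simp; norm_num
    rw [c5] at c4
    exact c4
  have b3 : |∑ a, s a / N * m a - ∑ a, Sl a * (2 * R) / G * (N * (Ml a / (2 * R)))| ≤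
      l * 2 := by
    refine sum_near fun a => ?_
    have c2 : |s a / N - Sl a * (2 * R) / G| ≤ 1 / N := by
      have : s a / N - Sl a * (2 * R) / G = (s a - N * (Sl a * (2 * R) / G)) / N := by
        field_simp
      rw [this, abs_div, abs_of_pos hN]
      exact div_le_div_of_nonneg_right (g3 a) hN.le
    have c4 := prod_near c2 (g6 a) (g5 a) (g4 a)
    have c5 : 1 / N * N + 1 * 1 = 2 := by field_simp; norm_num
    rw [c5] at c4
    exact c4
  have e1 : ∑ a, Ev a * (2 * R) / G * (N * ((zk a + R) / (2 * R))) =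
      N / G * ∑ a, Ev a * (zk a + R) := by
    rw [Finset.mul_sum]
    refine Finset.sum_congr rfl fun a _ => ?_
    field_simp
  have e2 : ∑ a, Sl a * (2 * R) / G * (N * (Ml a / (2 * R))) = N / G * ∑ a, Sl a * Ml a := by
    rw [Finset.mul_sum]
    refine Finset.sum_congr rfl fun a _ => ?_
    field_simp
  rw [e1] at b2
  rw [e2] at b3
  have e3 : N / G * (B1 + 2 * ρ * B2 - ∑ a, Ev a * (zk a + R) - ∑ a, Sl a * Ml a) =
      N * (B1 / G) + 2 * (N * ρ * (B2 / G)) - N / G * ∑ a, Ev a * (zk a + R) -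
        N / G * ∑ a, Sl a * Ml a := by ring
  rw [e3]
  have e4 : 2 * tt * (c / N) = 2 * (tt * (c / N)) := by ring
  rw [e4]
  rw [abs_le] at h1 b1 b2 b3 ⊢
  constructor <;> linarith only [h1.1, h1.2, b1.1, b1.2, b2.1, b2.2, b3.1, b3.2]

open Classical in
/-- Sums over coordinates. -/
theorem sum_flt {k n : ℕ} {p : ℕ → Prop} {f : Fin k → ℕ} (h1 : ∀ a, p (f a))
    (h1' : ∀ a, f a < n) (h2 : Function.Injective f) (h3 : ∀ l, p l → ∃ a, f a = l)
    (g : ℕ → ℝ) : ∑ l ∈ (range n).filter p, g l = ∑ a, g (f a) := by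
  symm
  refine Finset.sum_bij (fun a _ => f a) ?_ ?_ ?_ ?_
  · intro a _
    rw [Finset.mem_filter, Finset.mem_range]
    exact ⟨h1' a, h1 a⟩
  · intro a _ b _ h
    exact h2 h
  · intro l hl
    obtain ⟨a, ha⟩ := h3 l (Finset.mem_filter.1 hl).2
    exact ⟨a, Finset.mem_univ _, ha⟩
  · intro a _
    rfl

/-- Digits in the range. -/
theorem dgp_val {X : ℕ} {x R : ℝ} (hR : 0 < R) (hx : |x| ≤ R) :
    |(dgp X ((x + R) / (2 * R)) : ℝ) - 2 ^ X * ((x + R) / (2 * R))| ≤ 1 := by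
  rw [abs_le] at hx
  refine Pool.P4E.dgp_near ?_ ?_
  · exact div_nonneg (by linarith [hx.1]) (by linarith)
  · rw [div_le_one (by linarith)]
    linarith [hx.2]

theorem dg_val {X : ℕ} {x : ℝ} (hx : |x| ≤ 1) : |(dg X x : ℝ) - 2 ^ X * x| ≤ 1 := by
  have h := Pool.P4E.dg_near X x
  rwa [Pool.P4E.cl1_id hx] at h

/-- The digits of a quotient. -/
theorem quo_sub {x x' τ R Q : ℝ} (hQ : 0 ≤ Q) (hR : 1 ≤ R) (h : |x - x'| ≤ τ) (hτ : Q * τ ≤ 1) :
    Q * |x / R - x' / R| ≤ 1 := by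
  have hR0 : 0 < R := by linarith
  rw [← sub_div, abs_div, abs_of_pos hR0]
  have h0 : 0 ≤ |x - x'| := abs_nonneg _
  have h1 : |x - x'| / R ≤ τ := by
    rw [div_le_iff₀ hR0]
    have h2 : τ * 1 ≤ τ * R := mul_le_mul_of_nonneg_left hR (h0.trans h)
    linarith
  exact (mul_le_mul_of_nonneg_left h1 hQ).trans hτ

theorem fl_near {x : ℝ} : |(⌊x⌋ : ℝ) - x| ≤ 1 := by
  have h1 := Int.floor_le x
  have h2 := Int.lt_floor_add_one x
  rw [abs_le]
  constructor <;> linarith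

end Pool.P546
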