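import Pool.Agent.H46.P5.Pure

/-!
# P5: entropies given a large event
-/

set_option autoImplicit false

namespace Pool.P546

open Finset Real
open Pool.Agent.H49.Ent Pool.Agent.H32.Dense Pool.STK Pool.MIC
open Pool.BFL (Pb)

variable {Ω : Type} [Fintype Ω] {S T : Type}

/-- Few values. -/
theorem few_law {ι : Type} [Fintype ι] {p : Ω → ℝ} (hp : IsLaw p) (V : Ω → ι → ℤ) (Y : Ω → T)
    {m : ℝ} (h : ∀ ω ω', 0 < p ω → 0 < p ω' → Y ω = Y ω' → ∀ s, |((V ω s - V ω' s : ℤ) : ℝ)| ≤ m) :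
    CH p V Y ≤ Fintype.card ι * Real.log (2 * m + 1) := by
  have e := Fintype.equivFin ι
  have h1 := CH_le_vec hp.nonneg hp.sum_one (fun ω j => V ω (e.symm j)) Y (fun _ => m)
    (fun ω ω' a b c k => h ω ω' a b c _)
  rw [Ex_const hp.sum_one] at h1
  refine le_trans (CH_mono_left hp.nonneg ?_) h1
  intro ω ω' _ _ hh
  have h3 := congrFun (Prod.ext_iff.1 hh).1
  funext i
  have := h3 (e i)
  simpa using this

/-- Digits. -/
theorem dig_law {k X : ℕ} {p : Ω → ℝ} (hp : IsLaw p) (V : Ω → Fin k → ℤ) (Y : Ω → T)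
    (h : ∀ ω, 0 < p ω → ∀ l, 0 ≤ V ω l ∧ V ω l < 2 ^ X) : CH p V Y ≤ k * X * Real.log 2 := by
  classical
  have h2 := CH_le_card hp.nonneg hp.sum_one V Y
    (fun _ => Fintype.piFinset (fun _ : Fin k => Finset.Ico (0 : ℤ) (2 ^ X))) (fun ω hω => by
      rw [Fintype.mem_piFinset]
      intro l
      rw [Finset.mem_Ico]
      exact h ω hω l)
  rw [Ex_const hp.sum_one, Fintype.card_piFinset_const, Int.card_Ico] at h2
  simp only [sub_zero] at h2
  rw [show ((2 : ℤ) ^ X) = ((2 ^ X : ℕ) : ℤ) by push_cast; rfl, Int.toNat_natCast] at h2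
  push_cast at h2
  rw [← pow_mul, Real.log_pow] at h2
  push_cast at h2
  calc CH p V Y ≤ X * k * Real.log 2 := h2
    _ = k * X * Real.log 2 := by ring

theorem ev_law {p : Ω → ℝ} (hp : IsLaw p) (E : Ω → Prop) (hE : 1 / 2 ≤ Pb p E) :
    IsLaw (cond p E True) := isLaw_ev hp E (by linarith)

theorem ev_False {p : Ω → ℝ} (hp : IsLaw p) (E : Ω → Prop) (hE : 0 < Pb p (fun ω => ¬ E ω)) :
    IsLaw (cond p E False) :=
  ⟨cond_nonneg hp.nonneg E False, sum_cond p E (by rw [law_False]; exact hE.ne')⟩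

/-- To the event. -/
theorem to_ev {k X : ℕ} {p : Ω → ℝ} (hp : IsLaw p) (V : Ω → Fin k → ℤ) (Y : Ω → T)
    (h : ∀ ω, 0 < p ω → ∀ l, 0 ≤ V ω l ∧ V ω l < 2 ^ X) (E : Ω → Prop) :
    CH p V Y ≤ Real.log 2 + Pb p E * CH (cond p E True) V Y +
      Pb p (fun ω => ¬ E ω) * (k * X * Real.log 2) := by
  have h1 := CH_le_add hp.nonneg V E Y
  have h2 := CH_prop_le hp.nonneg hp.sum_one E Y
  have h3 := CH_swc hp.nonneg V E Y
  have h4 := CH_two hp.nonneg V Y E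
  have h5 : Pb p (fun ω => ¬ E ω) * CH (cond p E False) V Y ≤
      Pb p (fun ω => ¬ E ω) * (k * X * Real.log 2) := by
    have h6 := Pb_nonneg hp.nonneg (fun ω => ¬ E ω)
    rcases h6.eq_or_lt with h7 | h7
    · rw [← h7]
      simp
    · refine mul_le_mul_of_nonneg_left ?_ h6
      refine dig_law (ev_False hp E h7) V Y ?_
      intro ω hω
      exact h ω ((cond_pos_iff hp.nonneg E False ω).1 hω).1
  linarith

/-- Fullness passes to the event. -/
theorem full_ev {k X : ℕ} {p : Ω → ℝ} (hp : IsLaw p) (V : Ω → Fin k → ℤ) (Y : Ω → T)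
    (h : ∀ ω, 0 < p ω → ∀ l, 0 ≤ V ω l ∧ V ω l < 2 ^ X) (E : Ω → Prop) (hE : 1 / 2 ≤ Pb p E)
    {e : ℝ} (he : 0 ≤ e) (hf : k * X * Real.log 2 ≤ CH p V Y + e) :
    k * X * Real.log 2 ≤ CH (cond p E True) V Y + 2 * (e + Real.log 2) := by
  have h1 := to_ev hp V Y h E
  have h2 := Pb_not hp.sum_one E
  have hl : 0 ≤ Real.log 2 := Real.log_nonneg (by norm_num)
  obtain ⟨K, hK⟩ : ∃ K : ℝ, K = k * X * Real.log 2 := ⟨_, rfl⟩
  obtain ⟨c, hc⟩ : ∃ c : ℝ, c = CH (cond p E True) V Y := ⟨_, rfl⟩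
  obtain ⟨b, hb⟩ : ∃ b : ℝ, b = Pb p E := ⟨_, rfl⟩
  rw [← hK, ← hc, ← hb] at h1
  rw [← hK] at hf
  rw [← hb] at h2 hE
  rw [← hK, ← hc]
  have h3 : Pb p (fun ω => ¬ E ω) = 1 - b := by linarith
  rw [h3] at h1
  have h4 : b * K ≤ b * c + (e + Real.log 2) := by linarith
  by_contra h5
  push Not at h5
  have h6 : b * (c + 2 * (e + Real.log 2)) < b * K :=
    mul_lt_mul_of_pos_left h5 (by linarith)
  have h7 : (1 / 2) * (2 * (e + Real.log 2)) ≤ b * (2 * (e + Real.log 2)) :=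
    mul_le_mul_of_nonneg_right hE (by linarith)
  linarith

/-- Fullness comes back from the event. -/
theorem of_ev {p : Ω → ℝ} (hp : IsLaw p) (V : Ω → S) (Y : Ω → T) (E : Ω → Prop)
    (hE : 1 / 2 ≤ Pb p E) {K e : ℝ} (he : 0 ≤ e)
    (hf : K ≤ CH (cond p E True) V Y + e) :
    K ≤ CH p V Y + (e + Pb p (fun ω => ¬ E ω) * K) := by
  have h1 := CH_ev_le hp.nonneg V Y E
  have h2 := Pb_not hp.sum_one E
  have h3 := Pb_nonneg hp.nonneg (fun ω => ¬ E ω)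
  obtain ⟨c, hc⟩ : ∃ c : ℝ, c = CH (cond p E True) V Y := ⟨_, rfl⟩
  obtain ⟨b, hb⟩ : ∃ b : ℝ, b = Pb p (fun ω => ¬ E ω) := ⟨_, rfl⟩
  rw [← hc] at h1 hf
  rw [← hb] at h2 h3 ⊢
  have h4 : Pb p E = 1 - b := by linarith
  rw [h4] at h1 hE
  have h5 : (1 - b) * K ≤ (1 - b) * (c + e) := mul_le_mul_of_nonneg_left hf (by linarith)
  have h6 : (1 - b) * e ≤ 1 * e := mul_le_mul_of_nonneg_right (by linarith) he
  linarith

/-- Mutual information passes to the event. -/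
theorem mi_ev {U : Type} {p : Ω → ℝ} (hp : IsLaw p) (R : Ω → S) (L : Ω → T) (W : Ω → U)
    (E : Ω → Prop) (hE : 1 / 2 ≤ Pb p E) {m : ℝ} (hm : 0 ≤ m)
    (h : CH p R W ≤ CH p R (fun ω => (L ω, W ω)) + m) :
    CH (cond p E True) R W ≤ CH (cond p E True) R (fun ω => (L ω, W ω)) +
      2 * (m + Real.log 2) := by
  have h1 := mi_event hp R W (fun ω => (L ω, W ω))
    (fun ω ω' _ _ e => (Prod.ext_iff.1 e).2) h E
  have hl : 0 ≤ Real.log 2 := Real.log_nonneg (by norm_num)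
  obtain ⟨b, hb⟩ : ∃ b : ℝ, b = Pb p E := ⟨_, rfl⟩
  rw [← hb] at h1 hE
  by_contra h5
  push Not at h5
  have h6 : b * (CH (cond p E True) R (fun ω => (L ω, W ω)) + 2 * (m + Real.log 2)) <
      b * CH (cond p E True) R W := mul_lt_mul_of_pos_left h5 (by linarith)
  have h7 : (1 / 2) * (2 * (m + Real.log 2)) ≤ b * (2 * (m + Real.log 2)) :=
    mul_le_mul_of_nonneg_right hE (by linarith)
  linarith

end Pool.P546
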