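import Pool.Agent.H12.P5.Stm
import Pool.Agent.H70.P4.Ev
import Pool.Agent.H46.P5.Evn

/-!
# P5: the slow coordinates at the exact time are full, given the exact time
-/

set_option autoImplicit false

namespace Pool.P546

open Finset Real MvPolynomial
open Pool.Agent.H49.Ent Pool.Agent.H32.Dense Pool.STK Pool.STAT Pool.MIC.Frm Pool.P5
open Pool.P4 (t0 rt pp bb ze zt z0 be cl1 dg dgp Ry cb LLC tq)
open Pool.BFL (Pb)

/-- The coordinates of the exact point. -/
noncomputable def ztv (D : NDat2) (z i j r X : ℕ) (C : ℝ) (P : D.Γ × D.Γ → ℕ → PN) {k : ℕ}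
    (ys : Fin k → ℕ) (ω : D.Ω) (a : Fin k) : ℤ :=
  dgp X ((ze D i j r P ω (ys a) + Ry z C) / (2 * Ry z C))

theorem ztv_full {D : NDat2} {n K K' J a₀ w₀ z M w i j r r2 r' r'' y a X : ℕ}
    {lam gam : ℕ → ℝ} {κ C₁ C : ℝ} {q : D.Ω → ℝ} {E : D.Ω → Prop} {P : D.Γ × D.Γ → ℕ → PN}
    {S : Slo D} {c k0 k1 k : ℕ} {ys : Fin (k0 + k1) → ℕ} {gs : Fin c → ℕ}
    (hy : Hyp D n K K' J a₀ w₀ z M w i j r r2 r' r'' y a X lam gam κ C₁ C q E P S ys gs)
    (zs : Fin k → ℕ) (zs_in : Function.Injective zs) (zs_sl : ∀ a, sl gam n (zs a)) :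
    (k : ℝ) * X * Real.log 2 ≤ CH q (ztv D z i j r X C P zs)
        (fun ω => (cb D J w i j r ω, D.T ω)) +
      (C * z + 2 + n * (2 * (C * z) + 2) + k * 2 + (n + k) * ((X + 4) *
        Pb q (fun ω => ¬ E ω))) := by
  classical
  obtain ⟨x, hX, hx⟩ := hy.Xz
  have hq := hy.ok.isLaw
  have hq0 := hq.nonneg
  have hi : i ≤ M := by have := hy.i2; omega
  have hj : j ≤ M := by have := hy.j2; omega
  have hC1 := hy.Cg
  have hC0 : 0 ≤ C := by linarith
  have hz1 : (1 : ℝ) ≤ z := by exact_mod_cast hy.z1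
  have hz0 : (0 : ℝ) ≤ z := by linarith
  have hX0 : (0 : ℝ) < 2 ^ X := by positivity
  obtain ⟨R, hR⟩ : ∃ R : ℝ, R = Ry z C := ⟨_, rfl⟩
  have hRe : R = exp (C * z) := hR
  have hR1 : 1 ≤ R := by
    rw [hRe]
    exact Real.one_le_exp (by positivity)
  have hsl : ∀ a, 1 ≤ zs a ∧ zs a < n := fun a => ⟨(zs_sl a).1, (zs_sl a).2.1⟩
  obtain ⟨σ, hσ⟩ : ∃ σ : Fin k → Fin (n - 1), σ = fun a => ⟨zs a - 1, by
    have := hsl a
    omega⟩ := ⟨_, rfl⟩
  have hσv : ∀ a, ((σ a : Fin (n - 1)) : ℕ) + 1 = zs a := by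
    intro a
    rw [hσ]
    have := hsl a
    simp only
    omega
  have hσi : Function.Injective σ := by
    intro a b h
    refine zs_in ?_
    rw [← hσv a, ← hσv b, h]
  have hxr := hy.Xr x hX
  have hll := hy.llc i j r x hy.i0 hy.j1 (by omega) hxr
  rw [← hX] at hll
  have hxz : (x : ℝ) * z = X := by
    rw [hX]
    push_cast
    ring
  rw [hxz] at hll
  have key := Pool.P470.full_part hq (m := n - 1) (k := k) (X := X) (D.vd n i j X)
    (fun ω l => ze D i j r P ω (l + 1)) (fun ω a => ze D i j r P ω (zs a)) σ hσi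
    (fun ω => (D.c (i - 1) (j - r) ω, (D.c i j ω, D.T ω))) E hR1 (κ := C * z)
    (by
      intro ω hω l
      have h1 := hy.ok.pos i hi j hj ω hω (l + 1) (by omega) (by have := l.2; omega)
      have h2 : |(2 : ℝ) ^ D.g i j (l + 1) * D.sh i j ω (l + 1)| ≤ 1 := by
        rw [abs_mul, abs_of_pos (by positivity)]
        rw [le_div_iff₀ (by positivity)] at h1
        linarith
      have h3 : (2 : ℝ) ^ (D.g i j (l + 1) + X) * D.sh i j ω (l + 1) =
          2 ^ X * (2 ^ D.g i j (l + 1) * D.sh i j ω (l + 1)) := by ring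
      unfold NDat2.vd
      rw [h3]
      have a1 := Int.floor_le ((2 : ℝ) ^ X * (2 ^ D.g i j (l + 1) * D.sh i j ω (l + 1)))
      have a2 := Int.lt_floor_add_one
        ((2 : ℝ) ^ X * (2 ^ D.g i j (l + 1) * D.sh i j ω (l + 1)))
      rw [abs_le] at h2
      have b1 := mul_le_mul_of_nonneg_left h2.1 hX0.le
      have b2 := mul_le_mul_of_nonneg_left h2.2 hX0.le
      have hp : (1 : ℝ) ≤ 2 ^ X := one_le_pow₀ (by norm_num)
      have e1 : (2 : ℝ) ^ (X + 1) = 2 ^ X + 2 ^ X := by ring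
      rw [e1, abs_le]
      constructor <;> linarith)
    (by
      refine le_trans (le_of_eq ?_) hll
      rfl)
    (by
      intro ω hω hE l
      have := hy.geo.bz ω hω hE (l + 1) (by omega) (by have := l.2; omega)
      rw [hRe]
      exact this)
    (by
      intro ω hω hE a
      rw [hσv, sub_self, abs_zero]
      positivity)
    (by
      intro ω ω' hω hω' hE hE' hZ δ hδ hd l
      have z1 : D.c (i - 1) (j - r) ω = D.c (i - 1) (j - r) ω' := (Prod.ext_iff.1 hZ).1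
      have z2 : D.c i j ω = D.c i j ω' := (Prod.ext_iff.1 (Prod.ext_iff.1 hZ).2).1
      have z3 : D.T ω = D.T ω' := (Prod.ext_iff.1 (Prod.ext_iff.1 hZ).2).2
      have h1 := hy.geo.toV ω ω' hω hω' hE hE' (by unfold Pool.P4.bb; rw [z1, z2]) z3 (l + 1) (by omega)
        (by have := l.2; omega) δ hδ (fun k' hk' hk'' => by
          have h2 := hd ⟨k' - 1, by have := l.2; omega⟩
          have e1 : k' - 1 + 1 = k' := by omega
          simp only [e1] at h2
          exact h2)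
      have h3 : ∀ ω : D.Ω, (2 : ℝ) ^ (D.g i j (l + 1) + X) * D.sh i j ω (l + 1) =
          2 ^ X * (2 ^ D.g i j (l + 1) * D.sh i j ω (l + 1)) := fun ω => by ring
      unfold NDat2.vd
      rw [h3, h3]
      have a1 := Int.floor_le ((2 : ℝ) ^ X * (2 ^ D.g i j (l + 1) * D.sh i j ω (l + 1)))
      have a2 := Int.lt_floor_add_one
        ((2 : ℝ) ^ X * (2 ^ D.g i j (l + 1) * D.sh i j ω (l + 1)))
      have b1 := Int.floor_le ((2 : ℝ) ^ X * (2 ^ D.g i j (l + 1) * D.sh i j ω' (l + 1)))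
      have b2 := Int.lt_floor_add_one
        ((2 : ℝ) ^ X * (2 ^ D.g i j (l + 1) * D.sh i j ω' (l + 1)))
      rw [← hRe, abs_le] at h1
      have c1 := mul_le_mul_of_nonneg_left h1.1 hX0.le
      have c2 := mul_le_mul_of_nonneg_left h1.2 hX0.le
      have c3 : (2 : ℝ) ^ X * (R * δ) = R * 2 ^ X * δ := by ring
      have c4 : (2 : ℝ) ^ X * -(R * δ) = -(R * 2 ^ X * δ) := by ring
      rw [c3] at c2
      rw [c4] at c1
      have c5 : (2 : ℝ) ^ X * (2 ^ D.g i j (l + 1) * D.sh i j ω (l + 1) -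
          2 ^ D.g i j (l + 1) * D.sh i j ω' (l + 1)) =
          2 ^ X * (2 ^ D.g i j (l + 1) * D.sh i j ω (l + 1)) -
          2 ^ X * (2 ^ D.g i j (l + 1) * D.sh i j ω' (l + 1)) := by ring
      rw [c5] at c1 c2
      push_cast
      rw [abs_le]
      constructor <;> linarith only [c1, c2, a1, a2, b1, b2])
  -- the context
  have hcond : CH q (fun ω a => Pool.P470.dq X ((ze D i j r P ω (zs a) + R) / (2 * R)))
      (fun ω => (D.c (i - 1) (j - r) ω, (D.c i j ω, D.T ω))) =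
      CH q (ztv (k := k) D z i j r X C P zs) (fun ω => (cb D J w i j r ω, D.T ω)) := by
    have e1 : (fun ω (a : Fin k) => Pool.P470.dq X ((ze D i j r P ω (zs a) + R) / (2 * R))) =
        ztv (k := k) D z i j r X C P zs := by
      funext ω a
      unfold ztv dgp Pool.P470.dq
      rw [hR]
    rw [e1]
    refine CH_congr hq0 ?_ ?_ ?_ ?_
    · exact fun _ _ _ _ h => (Prod.ext_iff.1 h).1
    · exact fun _ _ _ _ h => (Prod.ext_iff.1 h).1
    · intro ω ω' _ _ h
      have z1 : D.c (i - 1) (j - r) ω = D.c (i - 1) (j - r) ω' := (Prod.ext_iff.1 h).1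
      have z2 : D.c i j ω = D.c i j ω' := (Prod.ext_iff.1 (Prod.ext_iff.1 h).2).1
      have z3 : D.T ω = D.T ω' := (Prod.ext_iff.1 (Prod.ext_iff.1 h).2).2
      show (cb D J w i j r ω, D.T ω) = (cb D J w i j r ω', D.T ω')
      unfold cb Pool.P4.bb
      rw [z1, z2, z3]
    · intro ω ω' _ _ h
      have z3 : D.T ω = D.T ω' := (Prod.ext_iff.1 h).2
      have z4 : Pool.P4.bb D i j r ω = Pool.P4.bb D i j r ω' := (Prod.ext_iff.1 (Prod.ext_iff.1 h).1).1
      have z1 : D.c (i - 1) (j - r) ω = D.c (i - 1) (j - r) ω' := (Prod.ext_iff.1 z4).2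
      have z2 : D.c i j ω = D.c i j ω' := (Prod.ext_iff.1 z4).1
      show (D.c (i - 1) (j - r) ω, (D.c i j ω, D.T ω)) =
        (D.c (i - 1) (j - r) ω', (D.c i j ω', D.T ω'))
      rw [z1, z2, z3]
  rw [hcond] at key
  obtain ⟨b, hb⟩ : ∃ b : ℝ, b = Pb q (fun ω => ¬ E ω) := ⟨_, rfl⟩
  have hb0 : 0 ≤ b := by
    rw [hb]
    exact Pool.MIC.Pb_nonneg hq0 _
  rw [← hb] at key ⊢
  have hlR : Real.log R = C * z := by rw [hRe, Real.log_exp]
  rw [hlR] at key
  have hXr : (0 : ℝ) ≤ X := Nat.cast_nonneg _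
  have hn1 : ((n - 1 : ℕ) : ℝ) ≤ n := by exact_mod_cast Nat.sub_le _ _
  have t1 : ((n - 1 : ℕ) : ℝ) * (2 * (C * z) + 2) ≤ n * (2 * (C * z) + 2) :=
    mul_le_mul_of_nonneg_right hn1 (by positivity)
  have t2 : (((n - 1 : ℕ) : ℝ) + k) * ((X + 4) * b) ≤ (n + k) * ((X + 4) * b) :=
    mul_le_mul_of_nonneg_right (by linarith) (by positivity)
  linarith only [key, t1, t2]

end Pool.P546
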