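import Pool.Agent.H46.P5.Near
import Pool.Agent.H46.P5.Zt

/-!
# P5: few values on a large event
-/

set_option autoImplicit false

namespace Pool.P546

open Finset Real
open Pool.Agent.H49.Ent Pool.Agent.H32.Dense Pool.STAT Pool.P5 Pool.MIC
open Pool.STK hiding bb
open Pool.P4 (t0 rt pp ze zt z0 be cl1 dg dgp Ry cb LLC tq)
open Pool.BFL (Pb)

section

variable {D : NDat2} {n K K' J a₀ w₀ z M w i j r r2 r' r'' y a X : ℕ} {lam gam : ℕ → ℝ}
  {κ C₁ C : ℝ} {q : D.Ω → ℝ} {E : D.Ω → Prop} {P : D.Γ × D.Γ → ℕ → PN}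
  {S : Slo D} {c k0 k1 : ℕ} {ys : Fin (k0 + k1) → ℕ} {gs : Fin c → ℕ}

/-- The classes of the right side. -/
theorem rcls {r₁ : ℕ} {ω ω' : D.Ω}
    (e : (D.rgt i j r₁ r 1 ω, (cb D J w i j r ω, D.T ω)) =
      (D.rgt i j r₁ r 1 ω', (cb D J w i j r ω', D.T ω'))) :
    Pool.P4.bb D i j r ω = Pool.P4.bb D i j r ω' ∧ D.T ω = D.T ω' ∧
      D.c (i - r₁) (j + r) ω = D.c (i - r₁) (j + r) ω' := by
  have e1 := Prod.ext_iff.1 e
  have e2 := Prod.ext_iff.1 e1.2
  have e3 := Prod.ext_iff.1 e2.1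
  refine ⟨e3.1, e2.2, ?_⟩
  have e4 := congrFun e1.1 (1 : Fin 2)
  have e5 : D.c (i - ((1 : Fin 2) : ℕ) * r₁) (j + ((1 : Fin 2) : ℕ) * r) ω =
    D.c (i - ((1 : Fin 2) : ℕ) * r₁) (j + ((1 : Fin 2) : ℕ) * r) ω' := e4
  simpa using e5

/-- The classes of the left side. -/
theorem lcls {r₁ : ℕ} {ω ω' : D.Ω}
    (e : (D.lft i j r₁ r 1 ω, (cb D J w i j r ω, D.T ω)) =
      (D.lft i j r₁ r 1 ω', (cb D J w i j r ω', D.T ω'))) :
    Pool.P4.bb D i j r ω = Pool.P4.bb D i j r ω' ∧ D.T ω = D.T ω' ∧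
      D.c (i + r₁) (j - r) ω = D.c (i + r₁) (j - r) ω' ∧
      D.T ω / 2 ^ (J - w) = D.T ω' / 2 ^ (J - w) := by
  have e1 := Prod.ext_iff.1 e
  have e2 := Prod.ext_iff.1 e1.2
  have e3 := Prod.ext_iff.1 e2.1
  exact ⟨e3.1, e2.2, Pool.P4E.lft_one e1.1, e3.2⟩

variable (H : Hyp D n K K' J a₀ w₀ z M w i j r r2 r' r'' y a X lam gam κ C₁ C q E P S ys gs)

include H

/-- **The information between the two sides.** -/
theorem mi5 {r₁ : ℕ} (h1 : r₁ ≤ i) (h2 : i + r₁ < M) :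
    CH q (D.rgt i j r₁ r 1) (fun ω => (cb D J w i j r ω, D.T ω)) ≤
      CH q (D.rgt i j r₁ r 1) (fun ω => (D.lft i j r₁ r 1 ω, (cb D J w i j r ω, D.T ω))) +
        κ * z := by
  have hq := H.ok.isLaw.nonneg
  have h3 := H.j1
  have h4 := H.j2
  have a1 := H.dma.rl hq (i := i) (j := j) (a := r₁) (b := r) (s := 1) (s' := 1) (by omega)
    (by omega) (by omega) (by omega)
  have a2 : CH q (D.rgt i j r₁ r 1) (fun ω => (cb D J w i j r ω, D.T ω)) ≤
      CH q (D.rgt i j r₁ r 1) (fun ω => (D.c i j ω, D.T ω)) :=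
    CH_mono_cond hq fun ω ω' _ _ e => by
      have e1 := Prod.ext_iff.1 e
      have e2 := Prod.ext_iff.1 e1.1
      have e3 : D.c i j ω = D.c i j ω' := (Prod.ext_iff.1 e2.1).1
      exact Prod.ext e3 e1.2
  have a3 : CH q (D.rgt i j r₁ r 1) (fun ω => (D.lft i j r₁ r 1 ω, (D.c i j ω, D.T ω))) ≤
      CH q (D.rgt i j r₁ r 1)
        (fun ω => (D.lft i j r₁ r 1 ω, (cb D J w i j r ω, D.T ω))) :=
    CH_mono_cond hq fun ω ω' a b e => by
      have e1 := Prod.ext_iff.1 e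
      have e2 := Prod.ext_iff.1 e1.2
      have e4 := Pool.P4E.lft_one e1.1
      have e6 := Pool.P4.c_up1 H.ok (j := j - r) (by omega) i r₁ (by omega) ω ω' a b e4
      refine Prod.ext e1.1 (Prod.ext (Prod.ext (Prod.ext e2.1 e6) ?_) e2.2)
      show D.T ω / 2 ^ (J - w) = D.T ω' / 2 ^ (J - w)
      have : D.T ω = D.T ω' := e2.2
      rw [this]
  linarith

/-- The law given the event. -/
theorem plaw : IsLaw (cond q E True) := ev_law H.ok.isLaw E H.pE

theorem ppos {ω : D.Ω} (h : 0 < cond q E True ω) : 0 < q ω ∧ E ω :=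
  ev_pos H.ok.isLaw.nonneg E h

/-- The information between the two sides, given the event. -/
theorem mi5E {r₁ : ℕ} (h1 : r₁ ≤ i) (h2 : i + r₁ < M) :
    CH (cond q E True) (D.rgt i j r₁ r 1) (fun ω => (cb D J w i j r ω, D.T ω)) ≤
      CH (cond q E True) (D.rgt i j r₁ r 1)
        (fun ω => (D.lft i j r₁ r 1 ω, (cb D J w i j r ω, D.T ω))) +
        2 * (κ * z + Real.log 2) :=
  mi_ev H.ok.isLaw _ _ _ E H.pE (mul_nonneg H.κ0 (Nat.cast_nonneg _)) (mi5 H h1 h2)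

theorem r2i : r2 ≤ i := (H.r2r.trans H.r1).trans H.i1

theorem r2M : i + r2 < M := by
  have h1 := H.r2r
  have h2 := H.r1
  have h3 := H.i2
  omega

/-- The context at `R''`, from the context at `R2`. -/
theorem c_R2 {ω ω' : D.Ω} (hω : 0 < q ω) (hω' : 0 < q ω')
    (e : D.c (i - r2) (j + r) ω = D.c (i - r2) (j + r) ω') :
    D.c (i - r'') (j + r) ω = D.c (i - r'') (j + r) ω' := by
  have h1 := H.r2r
  have h2 := H.r1
  have h3 := H.i1
  have h4 := H.j2
  have h5 := H.i2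
  refine Pool.P4.c_up H.ok (j := j + r) (by omega) (i - r'') (r'' - r2) (by omega) ω ω' hω hω' ?_
  rw [show i - r'' + (r'' - r2) = i - r2 by omega]
  exact e

/-- The label at `R''`. -/
theorem s_R2 {ω ω' : D.Ω} (hω : 0 < q ω) (hω' : 0 < q ω')
    (e : D.c (i - r'') (j + r) ω = D.c (i - r'') (j + r) ω') (hT : D.T ω = D.T ω') :
    D.s (i - r'') (j + r) ω = D.s (i - r'') (j + r) ω' := by
  have h4 := H.j2
  have h5 := H.i2
  exact H.ok.s_c (i - r'') (by omega) (j + r) (by omega) ω ω' hω hω' (Prod.ext e hT)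

theorem rt_eq {ω ω' : D.Ω} (hT : D.T ω = D.T ω') : rt D J w ω = rt D J w ω' := by
  unfold rt t0
  rw [H.ok.X_zero, H.ok.X_zero, hT]

/-! ### Digits of near numbers -/

theorem y_sub {x x' : ℝ} (h : |x - x'| ≤ exp (C * z) / 2 ^ (y * z)) :
    |((dgp X ((x + Ry z C) / (2 * Ry z C)) - dgp X ((x' + Ry z C) / (2 * Ry z C)) : ℤ) : ℝ)| ≤
      3 := by
  have hR := Ry_one' (z := z) H.Cg
  have h2 : (2 : ℝ) ^ X * |(x + Ry z C) / (2 * Ry z C) - (x' + Ry z C) / (2 * Ry z C)| ≤ 1 := by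
    refine quo_sub (τ := exp (C * z) / 2 ^ (y * z)) (by positivity) (by linarith) ?_
      (tauX H)
    rw [add_sub_add_right_eq_sub]
    exact h
  have h3 := Pool.P4E.dgp_sub h2
  linarith

theorem m_sub {x x' : ℝ} (h : |x - x'| ≤ exp (C * z) / 2 ^ (y * z)) :
    |((dg X (x / (2 * Ry z C)) - dg X (x' / (2 * Ry z C)) : ℤ) : ℝ)| ≤ 3 := by
  have hR := Ry_one' (z := z) H.Cg
  have h3 := Pool.P4E.dg_sub (quo_sub (R := 2 * Ry z C)
    (by positivity : (0 : ℝ) ≤ 2 ^ X) (by linarith) h (tauX H))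
  linarith

theorem Rg1 : 1 ≤ Rg z C := by
  have hR := Ry_one' (z := z) H.Cg
  rw [Rg_eq']
  obtain ⟨R, hR'⟩ : ∃ R, R = Ry z C := ⟨_, rfl⟩
  rw [← hR'] at hR ⊢
  have h1 : 1 * 1 ≤ R * R := mul_le_mul hR hR (by norm_num) (by linarith)
  have h2 : 1 * 1 ≤ R * (R * R) := mul_le_mul hR (by linarith) (by norm_num) (by linarith)
  linarith

theorem g_sub {x x' : ℝ} (h : |x - x'| ≤ exp (C * z) / 2 ^ (y * z)) :
    |((dg X (x / Rg z C) - dg X (x' / Rg z C) : ℤ) : ℝ)| ≤ 3 := by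
  have h3 := Pool.P4E.dg_sub (quo_sub (R := Rg z C)
    (by positivity : (0 : ℝ) ≤ 2 ^ X) (Rg1 H) h (tauX H))
  linarith

theorem s_sub {x x' : ℝ} (h : |x - x'| ≤ exp (C * z) / 2 ^ (y * z)) :
    |((dg X (x * (2 * Ry z C) / Rg z C) - dg X (x' * (2 * Ry z C) / Rg z C) : ℤ) : ℝ)| ≤ 3 := by
  have hR := Ry_one' (z := z) H.Cg
  have hG := Rg_pos' z C
  have h2 : (2 : ℝ) ^ X * |x * (2 * Ry z C) / Rg z C - x' * (2 * Ry z C) / Rg z C| ≤ 1 := by
    have e1 : ∀ x : ℝ, x * (2 * Ry z C) / Rg z C = x / (Ry z C * Ry z C) := by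
      intro x
      rw [Rg_eq']
      have : Ry z C ≠ 0 := by linarith
      field_simp
    rw [e1, e1]
    refine quo_sub (by positivity) ?_ h (tauX H)
    have h1 : 1 * 1 ≤ Ry z C * Ry z C := mul_le_mul hR hR (by norm_num) (by linarith)
    linarith
  have h3 := Pool.P4E.dg_sub h2
  linarith

omit H in
theorem fl_sub {x x' m : ℝ} (h : |x - x'| ≤ m) : |((⌊x⌋ - ⌊x'⌋ : ℤ) : ℝ)| ≤ m + 1 := by
  have h1 := Int.floor_le x
  have h2 := Int.lt_floor_add_one x
  have h3 := Int.floor_le x'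
  have h4 := Int.lt_floor_add_one x'
  push_cast
  rw [abs_le] at h ⊢
  constructor <;> linarith [h.1, h.2]

/-! ### Few values -/

/-- The constant slow coordinates, at `L2`. -/
theorem y0_few : CH (cond q E True)
    (fun ω (b : Fin k0) => yv D J w z i j r X C P ys ω (Fin.castAdd k1 b))
    (fun ω => (D.lft i j r2 r 1 ω, (cb D J w i j r ω, D.T ω))) ≤ k0 * Real.log (2 * 3 + 1) := by
  have h := few_law (plaw H) (fun ω (b : Fin k0) => yv D J w z i j r X C P ys ω (Fin.castAdd k1 b))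
    (fun ω => (D.lft i j r2 r 1 ω, (cb D J w i j r ω, D.T ω))) (m := 3) (by
      intro ω ω' p p' e b
      obtain ⟨e1, e2, e3, e4⟩ := lcls e
      obtain ⟨g1, g2⟩ := ppos H p
      obtain ⟨g3, g4⟩ := ppos H p'
      exact y_sub H ((H.geo.left2 ω ω' g1 g3 g2 g4 e1 e3 w H.w1 H.w2 e4).1 _ (H.ys0 b)))
  rwa [Fintype.card_fin] at h

/-- The velocities of the affine coordinates, at `L2`. -/
theorem mv_few : CH (cond q E True) (mv D J w z i j r X C P ys)
    (fun ω => (D.lft i j r2 r 1 ω, (cb D J w i j r ω, D.T ω))) ≤ k1 * Real.log (2 * 3 + 1) := by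
  have h := few_law (plaw H) (mv D J w z i j r X C P ys)
    (fun ω => (D.lft i j r2 r 1 ω, (cb D J w i j r ω, D.T ω))) (m := 3) (by
      intro ω ω' p p' e b
      obtain ⟨e1, e2, e3, e4⟩ := lcls e
      obtain ⟨g1, g2⟩ := ppos H p
      obtain ⟨g3, g4⟩ := ppos H p'
      exact m_sub H ((H.geo.left2 ω ω' g1 g3 g2 g4 e1 e3 w H.w1 H.w2 e4).2.1 _ (H.ys1 b)))
  rwa [Fintype.card_fin] at h

/-- The second velocities of the group, at `L2`. -/
theorem be2v_few : CH (cond q E True) (be2v D J w z i j r X C P gs)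
    (fun ω => (D.lft i j r2 r 1 ω, (cb D J w i j r ω, D.T ω))) ≤ c * Real.log (2 * 3 + 1) := by
  have h := few_law (plaw H) (be2v D J w z i j r X C P gs)
    (fun ω => (D.lft i j r2 r 1 ω, (cb D J w i j r ω, D.T ω))) (m := 3) (by
      intro ω ω' p p' e b
      obtain ⟨e1, e2, e3, e4⟩ := lcls e
      obtain ⟨g1, g2⟩ := ppos H p
      obtain ⟨g3, g4⟩ := ppos H p'
      exact g_sub H ((H.geo.left2 ω ω' g1 g3 g2 g4 e1 e3 w H.w1 H.w2 e4).2.2 _ (H.gs_gr b)))
  rwa [Fintype.card_fin] at h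

omit H in
/-- Two indices. -/
theorem few_two {T : Type} {l m : ℕ} {p : D.Ω → ℝ} (hp : IsLaw p) (V : D.Ω → Fin l → Fin m → ℤ)
    (Y : D.Ω → T) {x : ℝ}
    (h : ∀ ω ω', 0 < p ω → 0 < p ω' → Y ω = Y ω' → ∀ s t,
      |((V ω s t - V ω' s t : ℤ) : ℝ)| ≤ x) : CH p V Y ≤ l * m * Real.log (2 * x + 1) := by
  have h1 := few_law hp (fun ω (s : Fin l × Fin m) => V ω s.1 s.2) Y
    (fun ω ω' a b e s => h ω ω' a b e s.1 s.2)
  rw [Fintype.card_prod, Fintype.card_fin, Fintype.card_fin] at h1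
  push_cast at h1
  refine le_trans (CH_mono_left hp.nonneg ?_) h1
  intro ω ω' _ _ hh
  funext s t
  exact congrFun (Prod.ext_iff.1 hh).1 (s, t)

/-- The slopes of the leaf, from the label at `R''`. -/
theorem El_sub {ω ω' : D.Ω} (p : 0 < cond q E True ω) (p' : 0 < cond q E True ω')
    (hb : Pool.P4.bb D i j r ω = Pool.P4.bb D i j r ω') (hT : D.T ω = D.T ω')
    (hc : D.c (i - r'') (j + r) ω = D.c (i - r'') (j + r) ω') (l : Fin k1) (b : Fin k0) :
    |((Elv D X S ys ω l b - Elv D X S ys ω' l b : ℤ) : ℝ)| ≤ 3 := by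
  obtain ⟨g1, g2⟩ := ppos H p
  obtain ⟨g3, g4⟩ := ppos H p'
  have h1 := (H.geo.right2 ω ω' g1 g3 g2 g4 hb hT (s_R2 H g1 g3 hc hT)).2 _ (H.ys1 l) _ (H.ys0 b)
  have h2 : |(2 : ℝ) ^ X * S.El ω (ys (Fin.natAdd k0 l)) (ys (Fin.castAdd k1 b)) -
      2 ^ X * S.El ω' (ys (Fin.natAdd k0 l)) (ys (Fin.castAdd k1 b))| ≤ 1 := by
    rw [← mul_sub, abs_mul, abs_of_pos (by positivity : (0 : ℝ) < 2 ^ X)]
    exact (mul_le_mul_of_nonneg_left h1 (by positivity)).trans (tauX H)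
  have h3 := fl_sub h2
  unfold Elv
  linarith

theorem Elv_few {r₁ : ℕ} (hr : r₁ = r2 ∨ r₁ = r'') : CH (cond q E True) (Elv D X S ys)
    (fun ω => (D.rgt i j r₁ r 1 ω, (cb D J w i j r ω, D.T ω))) ≤
      k1 * k0 * Real.log (2 * 3 + 1) := by
  refine few_two (plaw H) _ _ ?_
  intro ω ω' p p' e l b
  obtain ⟨e1, e2, e3⟩ := rcls e
  refine El_sub H p p' e1 e2 ?_ l b
  rcases hr with h | h
  · rw [h] at e3
    exact c_R2 H (ppos H p).1 (ppos H p').1 e3
  · rwa [h] at e3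

/-- The own slopes, at `R2`. -/
theorem Sv_few5 : CH (cond q E True) (Sv D z X C S ys gs)
    (fun ω => (D.rgt i j r2 r 1 ω, (cb D J w i j r ω, D.T ω))) ≤
      c * (k0 + k1) * Real.log (2 * 3 + 1) := by
  have h := few_two (plaw H) (Sv D z X C S ys gs)
    (fun ω => (D.rgt i j r2 r 1 ω, (cb D J w i j r ω, D.T ω))) (x := 3) (by
      intro ω ω' p p' e u b
      obtain ⟨e1, e2, e3⟩ := rcls e
      obtain ⟨g1, g2⟩ := ppos H p
      obtain ⟨g3, g4⟩ := ppos H p'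
      have e4 := s_R2 H g1 g3 (c_R2 H g1 g3 e3) e2
      exact s_sub H ((H.geo.right2 ω ω' g1 g3 g2 g4 e1 e2 e4).1 _ (H.gs_gr u) _ (H.ys_sl b)))
  push_cast at h
  exact h

/-- The velocities of the slopes of the leaf, at `R2`. -/
theorem Evv_few : CH (cond q E True) (Evv D w z X C S ys gs)
    (fun ω => (D.rgt i j r2 r 1 ω, (cb D J w i j r ω, D.T ω))) ≤
      c * k0 * Real.log (2 * 3 + 1) := by
  refine few_two (plaw H) _ _ ?_
  intro ω ω' p p' e u b
  obtain ⟨e1, e2, e3⟩ := rcls e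
  obtain ⟨g1, g2⟩ := ppos H p
  obtain ⟨g3, g4⟩ := ppos H p'
  exact s_sub H (H.geo.right3 ω ω' g1 g3 g2 g4 e1 e2 (c_R2 H g1 g3 e3) _ (H.gs_gr u) _
    (H.ys0 b) w H.w1 H.w2)

/-- The own leaf of the affine coordinates, at `R2`. -/
theorem la_few : CH (cond q E True)
    (fun ω (l : Fin k1) => ⌊laR J w X (tv D J w z i j r X C S ys gs ω)
      (vv D J w z i j r X C P ys gs ω) l⌋)
    (fun ω => (D.rgt i j r2 r 1 ω, (cb D J w i j r ω, D.T ω))) ≤
      k1 * Real.log (2 * ((10 + 7 * k0) * Ry z C) + 1) := by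
  have h := few_law (plaw H) (fun ω (l : Fin k1) => ⌊laR J w X (tv D J w z i j r X C S ys gs ω)
      (vv D J w z i j r X C P ys gs ω) l⌋)
    (fun ω => (D.rgt i j r2 r 1 ω, (cb D J w i j r ω, D.T ω)))
    (m := (10 + 7 * k0) * Ry z C) (by
      intro ω ω' p p' e l
      obtain ⟨e1, e2, e3⟩ := rcls e
      obtain ⟨g1, g2⟩ := ppos H p
      obtain ⟨g3, g4⟩ := ppos H p'
      have n1 := laR_near H g1 g2 l
      have n2 := laR_near H g3 g4 l
      have h1 := (H.geo.leaf ω ω' g1 g3 g2 g4 e1 e2 e3).1 _ (H.ys1 l)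
      have h2 := fun b : Fin k0 => (H.geo.right2 ω ω' g1 g3 g2 g4 e1 e2
        (s_R2 H g1 g3 (c_R2 H g1 g3 e3) e2)).2 _ (H.ys1 l) _ (H.ys0 b)
      have hτ := tauX H
      have hR := Ry_one' (z := z) H.Cg
      obtain ⟨τ, hτ'⟩ : ∃ τ, τ = exp (C * z) / 2 ^ (y * z) := ⟨_, rfl⟩
      rw [← hτ'] at hτ h1
      simp only [← hτ'] at h2
      have hτ0 : 0 ≤ τ := by rw [hτ']; positivity
      obtain ⟨R, hRR⟩ : ∃ R, R = Ry z C := ⟨_, rfl⟩
      rw [← hRR] at n1 n2 hR ⊢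
      have s0 : |∑ b : Fin k0, S.El ω (ys (Fin.natAdd k0 l)) (ys (Fin.castAdd k1 b)) * R -
          ∑ b : Fin k0, S.El ω' (ys (Fin.natAdd k0 l)) (ys (Fin.castAdd k1 b)) * R| ≤
          k0 * (τ * R) := by
        refine sum_near fun b => ?_
        rw [← sub_mul, abs_mul, abs_of_pos (by linarith : 0 < R)]
        exact mul_le_mul_of_nonneg_right (h2 b) (by linarith)
      obtain ⟨A, hA⟩ : ∃ A : ℝ, A = ∑ b : Fin k0, S.El ω (ys (Fin.natAdd k0 l))
        (ys (Fin.castAdd k1 b)) * R := ⟨_, rfl⟩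
      obtain ⟨A', hA'⟩ : ∃ A' : ℝ, A' = ∑ b : Fin k0, S.El ω' (ys (Fin.natAdd k0 l))
        (ys (Fin.castAdd k1 b)) * R := ⟨_, rfl⟩
      obtain ⟨B, hB⟩ : ∃ B, B = la D n i j r gam P S.El ω (ys (Fin.natAdd k0 l)) := ⟨_, rfl⟩
      obtain ⟨B', hB'⟩ : ∃ B', B' = la D n i j r gam P S.El ω' (ys (Fin.natAdd k0 l)) :=
        ⟨_, rfl⟩
      rw [← hA, ← hB] at n1
      rw [← hA', ← hB'] at n2
      rw [← hA, ← hA'] at s0
      rw [← hB, ← hB'] at h1
      have hk : (0 : ℝ) ≤ k0 := Nat.cast_nonneg _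
      have d2 : |2 ^ X / (2 * R) * (B + R - A) - 2 ^ X / (2 * R) * (B' + R - A')| ≤ 1 + k0 := by
        have : 2 ^ X / (2 * R) * (B + R - A) - 2 ^ X / (2 * R) * (B' + R - A') =
          2 ^ X / (2 * R) * ((B - B') - (A - A')) := by ring
        rw [this, abs_mul, abs_of_pos (by positivity)]
        calc 2 ^ X / (2 * R) * |(B - B') - (A - A')| ≤ 2 ^ X / (2 * R) * ((1 + k0 * R) * τ) := by
              refine mul_le_mul_of_nonneg_left ?_ (by positivity)
              refine (abs_sub _ _).trans ?_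
              have : (1 + k0 * R) * τ = τ + k0 * (τ * R) := by ring
              rw [this]
              exact add_le_add h1 s0
          _ = (2 ^ X * τ) * ((1 + k0 * R) / (2 * R)) := by ring
          _ ≤ 1 * (1 + k0) := by
              refine mul_le_mul hτ ?_ (by positivity) (by norm_num)
              rw [div_le_iff₀ (by linarith)]
              have : 0 ≤ (k0 : ℝ) * R := by positivity
              nlinarith only [this, hR, hk]
          _ = 1 + k0 := one_mul _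
      have d4 : |laR J w X (tv D J w z i j r X C S ys gs ω)
          (vv D J w z i j r X C P ys gs ω) l - laR J w X (tv D J w z i j r X C S ys gs ω')
          (vv D J w z i j r X C P ys gs ω') l| ≤ 2 * ((4 + 3 * k0) * R) + (1 + k0) := by
        rw [abs_le] at n1 n2 d2 ⊢
        constructor <;> linarith only [n1.1, n1.2, n2.1, n2.2, d2.1, d2.2]
      have d5 := fl_sub d4
      have d6 : (k0 : ℝ) * 1 ≤ k0 * R := mul_le_mul_of_nonneg_left hR hk
      refine d5.trans ?_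
      nlinarith only [d6, hR, hk])
  rwa [Fintype.card_fin] at h

/-- The velocities of the group over the leaf, at `R2`. -/
theorem w_few : CH (cond q E True)
    (fun ω (u : Fin c) => ⌊wR J w X (tv D J w z i j r X C S ys gs ω)
      (vv D J w z i j r X C P ys gs ω) u⌋)
    (fun ω => (D.rgt i j r2 r 1 ω, (cb D J w i j r ω, D.T ω))) ≤
      c * Real.log (2 * (12 + 7 * k0 + 4 * k1) + 1) := by
  have h := few_law (plaw H) (fun ω (u : Fin c) => ⌊wR J w X (tv D J w z i j r X C S ys gs ω)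
      (vv D J w z i j r X C P ys gs ω) u⌋)
    (fun ω => (D.rgt i j r2 r 1 ω, (cb D J w i j r ω, D.T ω)))
    (m := 12 + 7 * k0 + 4 * k1) (by
      intro ω ω' p p' e u
      obtain ⟨e1, e2, e3⟩ := rcls e
      obtain ⟨g1, g2⟩ := ppos H p
      obtain ⟨g3, g4⟩ := ppos H p'
      have n1 := wR_near H g1 g2 u
      have n2 := wR_near H g3 g4 u
      have h1 := (H.geo.leaf ω ω' g1 g3 g2 g4 e1 e2 e3).2 _ (H.gs_gr u) w H.w1 H.w2
      have h2 := fun b : Fin k0 => H.geo.right3 ω ω' g1 g3 g2 g4 e1 e2 (c_R2 H g1 g3 e3) _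
        (H.gs_gr u) _ (H.ys0 b) w H.w1 H.w2
      have hτ := tauX H
      have hR := Ry_one' (z := z) H.Cg
      have hG := Rg1 H
      have hRG : Ry z C / Rg z C ≤ 1 := by
        have h1 := div_G (z := z) (C := C) (x := Ry z C) H.Cg
          (by rw [abs_of_pos (by linarith)])
        exact (le_abs_self _).trans h1
      obtain ⟨τ, hτ'⟩ : ∃ τ, τ = exp (C * z) / 2 ^ (y * z) := ⟨_, rfl⟩
      rw [← hτ'] at hτ h1
      simp only [← hτ'] at h2
      have hτ0 : 0 ≤ τ := by rw [hτ']; positivity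
      obtain ⟨R, hRR⟩ : ∃ R, R = Ry z C := ⟨_, rfl⟩
      rw [← hRR] at n1 n2 hR hRG
      obtain ⟨G, hGG⟩ : ∃ G, G = Rg z C := ⟨_, rfl⟩
      rw [← hGG] at n1 n2 hG hRG
      have s0 : |∑ b : Fin k0, S.Ev ω (gs u) (ys (Fin.castAdd k1 b)) / 2 ^ w * R -
          ∑ b : Fin k0, S.Ev ω' (gs u) (ys (Fin.castAdd k1 b)) / 2 ^ w * R| ≤
          k0 * (τ * R) := by
        refine sum_near fun b => ?_
        rw [← sub_mul, abs_mul, abs_of_pos (by linarith : 0 < R)]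
        exact mul_le_mul_of_nonneg_right (h2 b) (by linarith)
      obtain ⟨A, hA⟩ : ∃ A : ℝ, A = ∑ b : Fin k0, S.Ev ω (gs u)
        (ys (Fin.castAdd k1 b)) / 2 ^ w * R := ⟨_, rfl⟩
      obtain ⟨A', hA'⟩ : ∃ A' : ℝ, A' = ∑ b : Fin k0, S.Ev ω' (gs u)
        (ys (Fin.castAdd k1 b)) / 2 ^ w * R := ⟨_, rfl⟩
      obtain ⟨B, hB⟩ : ∃ B, B = wl D n J w i j r gam P S.S S.Ev ω (gs u) := ⟨_, rfl⟩
      obtain ⟨B', hB'⟩ : ∃ B', B' = wl D n J w i j r gam P S.S S.Ev ω' (gs u) := ⟨_, rfl⟩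
      rw [← hA, ← hB] at n1
      rw [← hA', ← hB'] at n2
      rw [← hA, ← hA'] at s0
      rw [← hB, ← hB'] at h1
      have hk : (0 : ℝ) ≤ k0 := Nat.cast_nonneg _
      have d2 : |2 ^ X / G * (B - A) - 2 ^ X / G * (B' - A')| ≤ 1 + k0 := by
        have : 2 ^ X / G * (B - A) - 2 ^ X / G * (B' - A') =
          2 ^ X / G * ((B - B') - (A - A')) := by ring
        rw [this, abs_mul, abs_of_pos (by positivity)]
        calc 2 ^ X / G * |(B - B') - (A - A')| ≤ 2 ^ X / G * ((1 + k0 * R) * τ) := by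
              refine mul_le_mul_of_nonneg_left ?_ (by positivity)
              refine (abs_sub _ _).trans ?_
              have : (1 + k0 * R) * τ = τ + k0 * (τ * R) := by ring
              rw [this]
              exact add_le_add h1 s0
          _ = (2 ^ X * τ) * (1 / G + k0 * (R / G)) := by ring
          _ ≤ 1 * (1 + k0) := by
              refine mul_le_mul hτ ?_ (by positivity) (by norm_num)
              have t1 : 1 / G ≤ 1 := by
                rw [div_le_one (by linarith)]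
                exact hG
              have t2 : (k0 : ℝ) * (R / G) ≤ k0 * 1 := mul_le_mul_of_nonneg_left hRG hk
              linarith
          _ = 1 + k0 := one_mul _
      have d4 : |wR J w X (tv D J w z i j r X C S ys gs ω)
          (vv D J w z i j r X C P ys gs ω) u - wR J w X (tv D J w z i j r X C S ys gs ω')
          (vv D J w z i j r X C P ys gs ω') u| ≤ 2 * (5 + 3 * k0 + 2 * k1) + (1 + k0) := by
        rw [abs_le] at n1 n2 d2 ⊢
        constructor <;> linarith only [n1.1, n1.2, n2.1, n2.2, d2.1, d2.2]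
      have d5 := fl_sub d4
      linarith only [d5])
  rwa [Fintype.card_fin] at h

/-- The slow coordinates at the exact time, two samples of one line. -/
theorem ze_sub {ω ω' : D.Ω} (p : 0 < cond q E True ω) (p' : 0 < cond q E True ω')
    (e : (D.lft i j r'' r 1 ω, (cb D J w i j r ω, D.T ω)) =
      (D.lft i j r'' r 1 ω', (cb D J w i j r ω', D.T ω'))) (b : Fin (k0 + k1)) :
    |ze D i j r P ω (ys b) - ze D i j r P ω' (ys b)| ≤ 4 * (exp (C * z) / 2 ^ (y * z)) := by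
  obtain ⟨e1, e2, e3, e4⟩ := lcls e
  obtain ⟨g1, g2⟩ := ppos H p
  obtain ⟨g3, g4⟩ := ppos H p'
  have h1 := H.geo.left3 ω ω' g1 g3 g2 g4 e1 e3 w H.w1 H.w2 e4 _ (ys_rng H b).1 (ys_rng H b).2
  have hr := rt_eq H e2
  have hr1 := (Pool.P4.rt_near (D := D) (J := J) (w := w) (X := X) (ω := ω)
    (H.ok.X_zero ω) (wXJ H)).1
  obtain ⟨τ, hτ'⟩ : ∃ τ, τ = exp (C * z) / 2 ^ (y * z) := ⟨_, rfl⟩
  rw [← hτ'] at h1 ⊢
  have hgeo := H.geo
  rw [← hτ'] at hgeo
  have hτ0 : 0 ≤ τ := by rw [hτ']; positivity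
  rcases (sl_iff H.g3 _).1 (H.ys_sl b) with hb | hb
  · have s1 := (hgeo.slow0 ω g1 g2 _ hb w H.w1 H.w2).1
    have s2 := (hgeo.slow0 ω' g3 g4 _ hb w H.w1 H.w2).1
    have s3 := h1.1
    rw [abs_le] at s1 s2 s3 ⊢
    constructor <;> linarith only [s1.1, s1.2, s2.1, s2.2, s3.1, s3.2, hτ0]
  · have s1 := (hgeo.slow1 ω g1 g2 _ hb w H.w1 H.w2).1
    have s2 := (hgeo.slow1 ω' g3 g4 _ hb w H.w1 H.w2).1
    have s3 := h1.1
    have s4 : |rt D J w ω * b1 D J w i j r P ω (ys b) -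
        rt D J w ω' * b1 D J w i j r P ω' (ys b)| ≤ τ := by
      rw [← hr, ← mul_sub, abs_mul]
      calc _ ≤ 1 * τ := mul_le_mul hr1 h1.2.1 (abs_nonneg _) (by norm_num)
        _ = τ := one_mul _
    rw [abs_le] at s1 s2 s3 s4 ⊢
    constructor <;> linarith only [s1.1, s1.2, s2.1, s2.2, s3.1, s3.2, s4.1, s4.2, hτ0]

/-- The slow coordinates at the exact time, at `L''`. -/
theorem zt_few : CH (cond q E True) (ztv D z i j r X C P ys)
    (fun ω => (D.lft i j r'' r 1 ω, (cb D J w i j r ω, D.T ω))) ≤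
      (k0 + k1) * Real.log (2 * 6 + 1) := by
  have h := few_law (plaw H) (ztv D z i j r X C P ys)
    (fun ω => (D.lft i j r'' r 1 ω, (cb D J w i j r ω, D.T ω))) (m := 6) (by
      intro ω ω' p p' e b
      have h1 := ze_sub H p p' e b
      have hR := Ry_one' (z := z) H.Cg
      have hτ := tauX H
      have h2 : (2 : ℝ) ^ X * |(ze D i j r P ω (ys b) + Ry z C) / (2 * Ry z C) -
          (ze D i j r P ω' (ys b) + Ry z C) / (2 * Ry z C)| ≤ 4 := by
        rw [← sub_div, add_sub_add_right_eq_sub, abs_div,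
          abs_of_pos (by linarith : 0 < 2 * Ry z C)]
        calc 2 ^ X * (|ze D i j r P ω (ys b) - ze D i j r P ω' (ys b)| / (2 * Ry z C)) ≤
              2 ^ X * ((4 * (exp (C * z) / 2 ^ (y * z))) / 1) := by
              refine mul_le_mul_of_nonneg_left ?_ (by positivity)
              exact div_le_div₀ (by positivity) h1 (by norm_num) (by linarith)
          _ = 4 * (2 ^ X * (exp (C * z) / 2 ^ (y * z))) := by ring
          _ ≤ 4 * 1 := mul_le_mul_of_nonneg_left hτ (by norm_num)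
          _ = 4 := by norm_num
      have h3 := Pool.P4E.dgp_sub h2
      unfold ztv
      linarith)
  rw [Fintype.card_fin] at h
  push_cast at h
  exact h

end

end Pool.P546
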