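import Pool.Agent.H46.P5.Dig

/-!
# P5: the closed leaf of a sample, digits and reals
-/

set_option autoImplicit false

namespace Pool.P546

open Finset Real
open Pool.Agent.H49.Ent Pool.Agent.H32.Dense Pool.STAT Pool.P5
open Pool.P4 (t0 rt pp ze zt z0 be cl1 dg dgp Ry cb LLC tq)
open Pool.BFL (Pb)

section

variable {D : NDat2} {n K K' J a₀ w₀ z M w i j r r2 r' r'' y a X : ℕ} {lam gam : ℕ → ℝ}
  {κ C₁ C : ℝ} {q : D.Ω → ℝ} {E : D.Ω → Prop} {P : D.Γ × D.Γ → ℕ → PN}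
  {S : Slo D} {c k0 k1 : ℕ} {ys : Fin (k0 + k1) → ℕ} {gs : Fin c → ℕ}

theorem Ry_one' {z : ℕ} {C : ℝ} (h : 1 ≤ C) : 1 ≤ Ry z C := by
  unfold Ry
  exact Real.one_le_exp (by positivity)

theorem Rg_eq' (z : ℕ) (C : ℝ) : Rg z C = 2 * (Ry z C * (Ry z C * Ry z C)) := by
  unfold Rg Ry
  rw [← Real.exp_add, ← Real.exp_add]
  congr 2
  ring

theorem Rg_pos' (z : ℕ) (C : ℝ) : 0 < Rg z C := by
  unfold Rg
  positivity

theorem ratio_le {z : ℕ} {C x : ℝ} (hC : 1 ≤ C) (hx : |x| ≤ Ry z C) :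
    |x * (2 * Ry z C) / Rg z C| ≤ 1 := by
  have hR := Ry_one' (z := z) hC
  have hG := Rg_pos' z C
  rw [abs_div, abs_of_pos hG, div_le_one hG, abs_mul, abs_of_pos (by linarith : 0 < 2 * Ry z C),
    Rg_eq']
  obtain ⟨R, hR'⟩ : ∃ R, R = Ry z C := ⟨_, rfl⟩
  rw [← hR'] at hx hR ⊢
  have h1 : |x| * (2 * R) ≤ R * (2 * R) := mul_le_mul_of_nonneg_right hx (by linarith)
  have h2 : R * R * 1 ≤ R * R * R := mul_le_mul_of_nonneg_left hR (by positivity)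
  linarith only [h1, h2]

theorem div_G {z : ℕ} {C x : ℝ} (hC : 1 ≤ C) (hx : |x| ≤ Ry z C) : |x / Rg z C| ≤ 1 := by
  have hR := Ry_one' (z := z) hC
  have hG := Rg_pos' z C
  rw [abs_div, abs_of_pos hG, div_le_one hG, Rg_eq']
  obtain ⟨R, hR'⟩ : ∃ R, R = Ry z C := ⟨_, rfl⟩
  rw [← hR'] at hx hR ⊢
  have h1 : R * 1 ≤ R * R := mul_le_mul_of_nonneg_left hR (by linarith)
  have h2 : R * R * 1 ≤ R * R * R := mul_le_mul_of_nonneg_left hR (by positivity)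
  linarith only [h1, h2, hx, hR]

theorem div_2R {z : ℕ} {C x : ℝ} (hx : |x| ≤ Ry z C) : |x / (2 * Ry z C)| ≤ 1 := by
  have hR : 0 < Ry z C := Real.exp_pos _
  rw [abs_div, abs_of_pos (by linarith : 0 < 2 * Ry z C), div_le_one (by linarith)]
  linarith

variable (H : Hyp D n K K' J a₀ w₀ z M w i j r r2 r' r'' y a X lam gam κ C₁ C q E P S ys gs)

include H

theorem wXJ : w + X ≤ J := by
  obtain ⟨x, hx, hx'⟩ := H.Xz
  have h1 := H.ok.thin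
  have h2 := H.ok.top
  have h3 := H.w2
  have h4 := H.j2
  have h5 : (j + 1) * z ≤ (M + 1) * z := Nat.mul_le_mul_right _ (by omega)
  have h6 : x * z ≤ (M + 1) * z := Nat.mul_le_mul_right _ (by omega)
  rw [hx]
  omega

theorem tauX : 2 ^ X * (exp (C * z) / 2 ^ (y * z)) ≤ 1 := by
  have h0 : (0 : ℝ) < 2 ^ (y * z) := by positivity
  rw [← mul_div_assoc, div_le_one h0, mul_comm]
  exact H.yX

theorem ys_rng (b : Fin (k0 + k1)) : 1 ≤ ys b ∧ ys b ≤ n :=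
  ⟨(H.ys_sl b).1, (H.ys_sl b).2.1.le⟩

/-- The slow coordinates, digits. -/
theorem yv_near {ω : D.Ω} (hω : 0 < q ω) (hE : E ω) (b : Fin (k0 + k1)) :
    |(yv D J w z i j r X C P ys ω b : ℝ) -
      2 ^ X * ((z0 D J w i j r P ω (ys b) + Ry z C) / (2 * Ry z C))| ≤ 1 :=
  dgp_val (Real.exp_pos _)
    (H.geo.bt ω hω hE _ (ys_rng H b).1 (ys_rng H b).2 w H.w1 H.w2).1

theorem yv_abs (ω : D.Ω) (b : Fin (k0 + k1)) :
    |(yv D J w z i j r X C P ys ω b : ℝ)| ≤ 2 ^ X := Pool.P4E.dgp_abs X _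

/-- The velocities of the affine coordinates, digits. -/
theorem mv_near {ω : D.Ω} (hω : 0 < q ω) (hE : E ω) (l : Fin k1) :
    |(mv D J w z i j r X C P ys ω l : ℝ) -
      2 ^ X * (b1 D J w i j r P ω (ys (Fin.natAdd k0 l)) / (2 * Ry z C))| ≤ 1 :=
  dg_val (div_2R (H.geo.bt ω hω hE _ (ys_rng H _).1 (ys_rng H _).2 w H.w1 H.w2).2.1)

/-- The own leaf of the affine coordinates, real. -/
theorem laR_near {ω : D.Ω} (hω : 0 < q ω) (hE : E ω) (l : Fin k1) :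
    |laR J w X (tv D J w z i j r X C S ys gs ω) (vv D J w z i j r X C P ys gs ω) l -
      2 ^ X / (2 * Ry z C) * (la D n i j r gam P S.El ω (ys (Fin.natAdd k0 l)) + Ry z C -
        ∑ b : Fin k0, S.El ω (ys (Fin.natAdd k0 l)) (ys (Fin.castAdd k1 b)) * Ry z C)| ≤
      (4 + 3 * k0) * Ry z C := by
  have hN : (0 : ℝ) < 2 ^ X := by positivity
  have hR := Ry_one' (z := z) H.Cg
  have hτ := tauX H
  obtain ⟨τ, hτ'⟩ : ∃ τ, τ = exp (C * z) / 2 ^ (y * z) := ⟨_, rfl⟩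
  have hgeo := H.geo
  rw [← hτ'] at hτ hgeo
  have hτ0 : 0 ≤ τ := by
    rw [hτ']
    positivity
  obtain ⟨hr1, hr2⟩ := Pool.P4.rt_near (D := D) (J := J) (w := w) (X := X) (ω := ω)
    (H.ok.X_zero ω) (wXJ H)
  have hbEl := hgeo.bEl ω (ys (Fin.natAdd k0 l))
  have main := la_arith (k := k0) (N := 2 ^ X) (R := Ry z C)
    (zl := z0 D J w i j r P ω (ys (Fin.natAdd k0 l)))
    (bl := b1 D J w i j r P ω (ys (Fin.natAdd k0 l))) (ρ := rt D J w ω)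
    (tt := (tq J w X (D.T ω) : ℝ))
    (yl := (yv D J w z i j r X C P ys ω (Fin.natAdd k0 l) : ℝ))
    (m := (mv D J w z i j r X C P ys ω l : ℝ))
    (El := fun b => S.El ω (ys (Fin.natAdd k0 l)) (ys (Fin.castAdd k1 b)))
    (zk := fun b => z0 D J w i j r P ω (ys (Fin.castAdd k1 b)))
    (ya := fun b => (yv D J w z i j r X C P ys ω (Fin.castAdd k1 b) : ℝ))
    (e := fun b => (Elv D X S ys ω l b : ℝ)) hN hR (yv_near H hω hE _) (mv_near H hω hE l)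
    (Pool.P4E.dg_abs X _) hr1 hr2 (fun b => fl_near) (fun b => yv_near H hω hE _)
    (fun b => hbEl _) (fun b => yv_abs H ω _)
  have eq : laR J w X (tv D J w z i j r X C S ys gs ω) (vv D J w z i j r X C P ys gs ω) l =
      (yv D J w z i j r X C P ys ω (Fin.natAdd k0 l) : ℝ) + (tq J w X (D.T ω) : ℝ) *
        ((mv D J w z i j r X C P ys ω l : ℝ) / 2 ^ X) -
        ∑ b : Fin k0, (Elv D X S ys ω l b : ℝ) / 2 ^ X *
          (yv D J w z i j r X C P ys ω (Fin.castAdd k1 b) : ℝ) := rfl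
  rw [eq]
  have hla : la D n i j r gam P S.El ω (ys (Fin.natAdd k0 l)) =
      ze D i j r P ω (ys (Fin.natAdd k0 l)) - ∑ b : Fin k0,
        S.El ω (ys (Fin.natAdd k0 l)) (ys (Fin.castAdd k1 b)) *
          ze D i j r P ω (ys (Fin.castAdd k1 b)) := by
    unfold la
    rw [sum_flt (p := sl0 gam n) (f := fun b : Fin k0 => ys (Fin.castAdd k1 b)) H.ys0
      (fun b => (H.ys0 b).2.1) (fun b b' hh => Fin.castAdd_injective k0 k1 (H.ys_in hh))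
      H.ys_on0 (fun k => S.El ω (ys (Fin.natAdd k0 l)) k * ze D i j r P ω k)]
  have s1 := (hgeo.slow1 ω hω hE _ (H.ys1 l) w H.w1 H.w2).1
  have s0 : |∑ b : Fin k0, S.El ω (ys (Fin.natAdd k0 l)) (ys (Fin.castAdd k1 b)) *
      ze D i j r P ω (ys (Fin.castAdd k1 b)) -
      ∑ b : Fin k0, S.El ω (ys (Fin.natAdd k0 l)) (ys (Fin.castAdd k1 b)) *
      z0 D J w i j r P ω (ys (Fin.castAdd k1 b))| ≤ k0 * (Ry z C * τ) := by
    refine sum_near fun b => ?_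
    rw [← mul_sub, abs_mul]
    exact mul_le_mul (hbEl _) (hgeo.slow0 ω hω hE _ (H.ys0 b) w H.w1 H.w2).1 (abs_nonneg _)
      (by linarith)
  have e1 : ∑ b : Fin k0, S.El ω (ys (Fin.natAdd k0 l)) (ys (Fin.castAdd k1 b)) *
      (z0 D J w i j r P ω (ys (Fin.castAdd k1 b)) + Ry z C) =
      ∑ b : Fin k0, S.El ω (ys (Fin.natAdd k0 l)) (ys (Fin.castAdd k1 b)) *
        z0 D J w i j r P ω (ys (Fin.castAdd k1 b)) +
      ∑ b : Fin k0, S.El ω (ys (Fin.natAdd k0 l)) (ys (Fin.castAdd k1 b)) * Ry z C := by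
    rw [← Finset.sum_add_distrib]
    refine Finset.sum_congr rfl fun b _ => ?_
    ring
  rw [e1] at main
  rw [hla]
  obtain ⟨A0, hA0⟩ : ∃ A0 : ℝ, A0 = ∑ b : Fin k0, S.El ω (ys (Fin.natAdd k0 l))
      (ys (Fin.castAdd k1 b)) * z0 D J w i j r P ω (ys (Fin.castAdd k1 b)) := ⟨_, rfl⟩
  obtain ⟨A1, hA1⟩ : ∃ A1 : ℝ, A1 = ∑ b : Fin k0, S.El ω (ys (Fin.natAdd k0 l))
      (ys (Fin.castAdd k1 b)) * ze D i j r P ω (ys (Fin.castAdd k1 b)) := ⟨_, rfl⟩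
  obtain ⟨A2, hA2⟩ : ∃ A2 : ℝ, A2 = ∑ b : Fin k0, S.El ω (ys (Fin.natAdd k0 l))
      (ys (Fin.castAdd k1 b)) * Ry z C := ⟨_, rfl⟩
  obtain ⟨V, hV⟩ : ∃ V : ℝ, V = (yv D J w z i j r X C P ys ω (Fin.natAdd k0 l) : ℝ) +
      (tq J w X (D.T ω) : ℝ) * ((mv D J w z i j r X C P ys ω l : ℝ) / 2 ^ X) -
        ∑ b : Fin k0, (Elv D X S ys ω l b : ℝ) / 2 ^ X *
          (yv D J w z i j r X C P ys ω (Fin.castAdd k1 b) : ℝ) := ⟨_, rfl⟩
  obtain ⟨R, hRR⟩ : ∃ R, R = Ry z C := ⟨_, rfl⟩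
  rw [← hA0, ← hA2] at main
  rw [← hA0, ← hA1] at s0
  rw [← hV] at main ⊢
  rw [← hA1, ← hA2]
  rw [← hRR] at main s0 hR ⊢
  obtain ⟨ζ, hζ⟩ : ∃ ζ, ζ = ze D i j r P ω (ys (Fin.natAdd k0 l)) := ⟨_, rfl⟩
  obtain ⟨ζ0, hζ0⟩ : ∃ ζ0, ζ0 = z0 D J w i j r P ω (ys (Fin.natAdd k0 l)) := ⟨_, rfl⟩
  obtain ⟨β, hβ⟩ : ∃ β, β = rt D J w ω * b1 D J w i j r P ω (ys (Fin.natAdd k0 l)) := ⟨_, rfl⟩
  rw [← hζ0, ← hβ] at main
  rw [← hζ, ← hζ0, ← hβ] at s1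
  rw [← hζ]
  have hk : (0 : ℝ) ≤ k0 := Nat.cast_nonneg _
  have d1 : |(ζ0 + R + β - (A0 + A2)) - (ζ - A1 + R - A2)| ≤ (1 + k0 * R) * τ := by
    have : (ζ0 + R + β - (A0 + A2)) - (ζ - A1 + R - A2) = -(ζ - (ζ0 + β)) + (A1 - A0) := by ring
    rw [this]
    refine (abs_add_le _ _).trans ?_
    rw [abs_neg]
    have : (1 + k0 * R) * τ = τ + k0 * (R * τ) := by ring
    rw [this]
    exact add_le_add s1 s0
  have d2 : |2 ^ X / (2 * R) * (ζ0 + R + β - (A0 + A2)) -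
      2 ^ X / (2 * R) * (ζ - A1 + R - A2)| ≤ 1 + k0 := by
    rw [← mul_sub, abs_mul, abs_of_pos (by positivity)]
    calc 2 ^ X / (2 * R) * |(ζ0 + R + β - (A0 + A2)) - (ζ - A1 + R - A2)| ≤
          2 ^ X / (2 * R) * ((1 + k0 * R) * τ) := mul_le_mul_of_nonneg_left d1 (by positivity)
      _ = (2 ^ X * τ) * ((1 + k0 * R) / (2 * R)) := by ring
      _ ≤ 1 * (1 + k0) := by
          refine mul_le_mul hτ ?_ (by positivity) (by norm_num)
          rw [div_le_iff₀ (by linarith)]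
          have : 0 ≤ (k0 : ℝ) * R := by positivity
          nlinarith only [this, hR, hk]
      _ = 1 + k0 := one_mul _
  have d3 : 3 + (k0 : ℝ) * (1 + R) + (1 + k0) ≤ (4 + 3 * k0) * R := by
    have : (k0 : ℝ) * 1 ≤ k0 * R := mul_le_mul_of_nonneg_left hR hk
    nlinarith only [this, hR, hk]
  rw [abs_le] at main d2 ⊢
  constructor <;> linarith only [main.1, main.2, d2.1, d2.2, d3]

/-- The velocities of the group over the leaf, real. -/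
theorem wR_near {ω : D.Ω} (hω : 0 < q ω) (hE : E ω) (u : Fin c) :
    |wR J w X (tv D J w z i j r X C S ys gs ω) (vv D J w z i j r X C P ys gs ω) u -
      2 ^ X / Rg z C * (wl D n J w i j r gam P S.S S.Ev ω (gs u) -
        ∑ b : Fin k0, S.Ev ω (gs u) (ys (Fin.castAdd k1 b)) / 2 ^ w * Ry z C)| ≤
      5 + 3 * k0 + 2 * k1 := by
  have hN : (0 : ℝ) < 2 ^ X := by positivity
  have hR := Ry_one' (z := z) H.Cg
  have hG := Rg_pos' z C
  have hτ := tauX H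
  obtain ⟨τ, hτ'⟩ : ∃ τ, τ = exp (C * z) / 2 ^ (y * z) := ⟨_, rfl⟩
  have hgeo := H.geo
  rw [← hτ'] at hτ hgeo
  have hτ0 : 0 ≤ τ := by
    rw [hτ']
    positivity
  obtain ⟨hr1, hr2⟩ := Pool.P4.rt_near (D := D) (J := J) (w := w) (X := X) (ω := ω)
    (H.ok.X_zero ω) (wXJ H)
  have gn : 1 ≤ gs u ∧ gs u ≤ n := ⟨(H.gs_gr u).1, (H.gs_gr u).2.1⟩
  have bt := hgeo.bt ω hω hE (gs u) gn.1 gn.2 w H.w1 H.w2
  have hbEv := fun k => hgeo.bEv ω (gs u) k w H.w1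
  have hbS := fun k => hgeo.bS ω (gs u) k
  have main := w_arith (k := k0) (l := k1) (N := 2 ^ X) (R := Ry z C) (G := Rg z C)
    (B1 := b1 D J w i j r P ω (gs u)) (B2 := b2 D J w i j r P ω (gs u)) (ρ := rt D J w ω)
    (tt := (tq J w X (D.T ω) : ℝ)) (b := (bev D J w z i j r X C P gs ω u : ℝ))
    (c := (be2v D J w z i j r X C P gs ω u : ℝ))
    (Ev := fun b => S.Ev ω (gs u) (ys (Fin.castAdd k1 b)) / 2 ^ w)
    (zk := fun b => z0 D J w i j r P ω (ys (Fin.castAdd k1 b)))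
    (ya := fun b => (yv D J w z i j r X C P ys ω (Fin.castAdd k1 b) : ℝ))
    (e := fun b => (Evv D w z X C S ys gs ω u b : ℝ))
    (Sl := fun l => S.S ω (gs u) (ys (Fin.natAdd k0 l)))
    (Ml := fun l => b1 D J w i j r P ω (ys (Fin.natAdd k0 l)))
    (s := fun l => (Sv D z X C S ys gs ω u (Fin.natAdd k0 l) : ℝ))
    (m := fun l => (mv D J w z i j r X C P ys ω l : ℝ)) hN hR hG
    (dg_val (div_G H.Cg bt.2.1)) (dg_val (div_G H.Cg bt.2.2)) (Pool.P4E.dg_abs X _) hr1 hr2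
    (fun b => dg_val (ratio_le H.Cg (hbEv _))) (fun b => yv_near H hω hE _)
    (fun b => ratio_le H.Cg (hbEv _)) (fun b => yv_abs H ω _)
    (fun b => dg_val (ratio_le H.Cg (hbS _))) (fun l => mv_near H hω hE l)
    (fun b => ratio_le H.Cg (hbS _)) (fun l => Pool.P4E.dg_abs X _)
  have eq : wR J w X (tv D J w z i j r X C S ys gs ω) (vv D J w z i j r X C P ys gs ω) u =
      (bev D J w z i j r X C P gs ω u : ℝ) + 2 * (tq J w X (D.T ω) : ℝ) *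
        ((be2v D J w z i j r X C P gs ω u : ℝ) / 2 ^ X) -
        ∑ b : Fin k0, (Evv D w z X C S ys gs ω u b : ℝ) / 2 ^ X *
          (yv D J w z i j r X C P ys ω (Fin.castAdd k1 b) : ℝ) -
        ∑ l : Fin k1, (Sv D z X C S ys gs ω u (Fin.natAdd k0 l) : ℝ) / 2 ^ X *
          (mv D J w z i j r X C P ys ω l : ℝ) := rfl
  rw [eq]
  have hwl : wl D n J w i j r gam P S.S S.Ev ω (gs u) =
      b1 D J w i j r P ω (gs u) + 2 * rt D J w ω * b2 D J w i j r P ω (gs u) -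
        ∑ b : Fin k0, S.Ev ω (gs u) (ys (Fin.castAdd k1 b)) / 2 ^ w *
          ze D i j r P ω (ys (Fin.castAdd k1 b)) -
        ∑ l : Fin k1, S.S ω (gs u) (ys (Fin.natAdd k0 l)) *
          b1 D J w i j r P ω (ys (Fin.natAdd k0 l)) := by
    unfold wl
    rw [sum_flt (p := sl0 gam n) (f := fun b : Fin k0 => ys (Fin.castAdd k1 b)) H.ys0
      (fun b => (H.ys0 b).2.1) (fun b b' hh => Fin.castAdd_injective k0 k1 (H.ys_in hh))
      H.ys_on0 (fun k => S.Ev ω (gs u) k / 2 ^ w * ze D i j r P ω k),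
      sum_flt (p := sl1 gam n) (f := fun b : Fin k1 => ys (Fin.natAdd k0 b)) H.ys1
      (fun b => (H.ys1 b).2.1) (fun b b' hh => Fin.natAdd_injective k1 k0 (H.ys_in hh))
      H.ys_on1 (fun l => S.S ω (gs u) l * b1 D J w i j r P ω l)]
  have s0 : |∑ b : Fin k0, S.Ev ω (gs u) (ys (Fin.castAdd k1 b)) / 2 ^ w *
      ze D i j r P ω (ys (Fin.castAdd k1 b)) -
      ∑ b : Fin k0, S.Ev ω (gs u) (ys (Fin.castAdd k1 b)) / 2 ^ w *
      z0 D J w i j r P ω (ys (Fin.castAdd k1 b))| ≤ k0 * (Ry z C * τ) := by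
    refine sum_near fun b => ?_
    rw [← mul_sub, abs_mul]
    exact mul_le_mul (hbEv _) (hgeo.slow0 ω hω hE _ (H.ys0 b) w H.w1 H.w2).1 (abs_nonneg _)
      (by linarith)
  have e1 : ∑ b : Fin k0, S.Ev ω (gs u) (ys (Fin.castAdd k1 b)) / 2 ^ w *
      (z0 D J w i j r P ω (ys (Fin.castAdd k1 b)) + Ry z C) =
      ∑ b : Fin k0, S.Ev ω (gs u) (ys (Fin.castAdd k1 b)) / 2 ^ w *
        z0 D J w i j r P ω (ys (Fin.castAdd k1 b)) +
      ∑ b : Fin k0, S.Ev ω (gs u) (ys (Fin.castAdd k1 b)) / 2 ^ w * Ry z C := by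
    rw [← Finset.sum_add_distrib]
    refine Finset.sum_congr rfl fun b _ => ?_
    ring
  rw [e1] at main
  rw [hwl]
  obtain ⟨A0, hA0⟩ : ∃ A0 : ℝ, A0 = ∑ b : Fin k0, S.Ev ω (gs u) (ys (Fin.castAdd k1 b)) / 2 ^ w *
      z0 D J w i j r P ω (ys (Fin.castAdd k1 b)) := ⟨_, rfl⟩
  obtain ⟨A1, hA1⟩ : ∃ A1 : ℝ, A1 = ∑ b : Fin k0, S.Ev ω (gs u) (ys (Fin.castAdd k1 b)) / 2 ^ w *
      ze D i j r P ω (ys (Fin.castAdd k1 b)) := ⟨_, rfl⟩
  obtain ⟨A2, hA2⟩ : ∃ A2 : ℝ, A2 = ∑ b : Fin k0, S.Ev ω (gs u) (ys (Fin.castAdd k1 b)) / 2 ^ w *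
      Ry z C := ⟨_, rfl⟩
  obtain ⟨A3, hA3⟩ : ∃ A3 : ℝ, A3 = ∑ l : Fin k1, S.S ω (gs u) (ys (Fin.natAdd k0 l)) *
      b1 D J w i j r P ω (ys (Fin.natAdd k0 l)) := ⟨_, rfl⟩
  obtain ⟨V, hV⟩ : ∃ V : ℝ, V = (bev D J w z i j r X C P gs ω u : ℝ) +
      2 * (tq J w X (D.T ω) : ℝ) * ((be2v D J w z i j r X C P gs ω u : ℝ) / 2 ^ X) -
        ∑ b : Fin k0, (Evv D w z X C S ys gs ω u b : ℝ) / 2 ^ X *
          (yv D J w z i j r X C P ys ω (Fin.castAdd k1 b) : ℝ) -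
        ∑ l : Fin k1, (Sv D z X C S ys gs ω u (Fin.natAdd k0 l) : ℝ) / 2 ^ X *
          (mv D J w z i j r X C P ys ω l : ℝ) := ⟨_, rfl⟩
  rw [← hA0, ← hA2, ← hA3, ← hV] at main
  rw [← hA0, ← hA1] at s0
  rw [← hV, ← hA1, ← hA2, ← hA3]
  obtain ⟨B, hB⟩ : ∃ B, B = b1 D J w i j r P ω (gs u) +
      2 * rt D J w ω * b2 D J w i j r P ω (gs u) := ⟨_, rfl⟩
  rw [← hB] at main ⊢
  have hk : (0 : ℝ) ≤ k0 := Nat.cast_nonneg _
  have hRG : Ry z C / Rg z C ≤ 1 := by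
    have h1 := div_G (z := z) (C := C) (x := Ry z C) H.Cg
      (by rw [abs_of_pos (by linarith)])
    exact (le_abs_self _).trans h1
  have d2 : |2 ^ X / Rg z C * (B - (A0 + A2) - A3) - 2 ^ X / Rg z C * (B - A1 - A3 - A2)| ≤
      k0 := by
    have : 2 ^ X / Rg z C * (B - (A0 + A2) - A3) - 2 ^ X / Rg z C * (B - A1 - A3 - A2) =
        2 ^ X / Rg z C * (A1 - A0) := by ring
    rw [this, abs_mul, abs_of_pos (by positivity)]
    calc 2 ^ X / Rg z C * |A1 - A0| ≤ 2 ^ X / Rg z C * (k0 * (Ry z C * τ)) :=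
          mul_le_mul_of_nonneg_left s0 (by positivity)
      _ = k0 * ((2 ^ X * τ) * (Ry z C / Rg z C)) := by ring
      _ ≤ k0 * 1 := by
          refine mul_le_mul_of_nonneg_left ?_ hk
          exact mul_le_one₀ hτ (by positivity) hRG
      _ = k0 := mul_one _
  rw [abs_le] at main d2 ⊢
  constructor <;> linarith only [main.1, main.2, d2.1, d2.2]

end

end Pool.P546
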