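import Pool.Agent.H16.P4.Few

/-!
# P5: the two fullness lemmas, entropies only

`lf_core`: the positions of the moving slow coordinates are full given the data of weight 0.
`rf_core`: the positions of the static slow coordinates are full given the data of a reference
time.
-/

set_option autoImplicit false

namespace Pool.P546

open Finset Real
open Pool.Agent.H49.Ent Pool.Agent.H32.Dense Pool.STK Pool.MIC

variable {Ω : Type} [Fintype Ω] {S₀ S₁ S₂ S₃ S₄ S₅ S₆ S₇ : Type}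

/-- Mutual information is symmetric. -/
theorem mi_sym {q : Ω → ℝ} (hq : ∀ ω, 0 ≤ q ω) (X : Ω → S₁) (Y : Ω → S₂) (W : Ω → S₃) :
    CH q X W - CH q X (fun ω => (Y ω, W ω)) = CH q Y W - CH q Y (fun ω => (X ω, W ω)) := by
  have h1 := CH_chain hq X Y W
  have h2 := CH_chain hq Y X W
  have h3 := CH_swl hq X Y W
  linarith

/-- **The core of (LF).** `W` is the context with the exact time, `c0` the context with the window,
`V0` the data of weight 0, `El` the slopes, `La` the own leaf, `L0` the positions at the left end,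
`Lt`, `Yt` the positions at the exact time. -/
theorem lf_core {q : Ω → ℝ} (hq : ∀ ω, 0 ≤ q ω) {W : Ω → S₀} {c0 : Ω → S₁} {V0 : Ω → S₂}
    {El : Ω → S₃} {La : Ω → S₄} {L0 : Ω → S₅} {Lt : Ω → S₆} {Yt : Ω → S₇}
    {K1 K0 m1 m2 e1 e2 e3 d : ℝ} (hW : Det q W c0)
    (h1 : CH q (fun ω => (La ω, El ω)) W ≤ CH q (fun ω => (La ω, El ω)) (fun ω => (V0 ω, W ω)) + m1)
    (h2 : CH q El W ≤ CH q El (fun ω => ((Lt ω, Yt ω), W ω)) + m2)
    (h3 : CH q La (fun ω => (L0 ω, (El ω, (V0 ω, W ω)))) ≤ e1)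
    (h4 : CH q Lt (fun ω => (La ω, (Yt ω, (El ω, W ω)))) ≤ e2)
    (h5 : CH q Yt (fun ω => (El ω, W ω)) ≤ K0 + e3)
    (h6 : K1 + K0 ≤ CH q (fun ω => (Lt ω, Yt ω)) W + d) :
    K1 ≤ CH q L0 (fun ω => (V0 ω, c0 ω)) + (m1 + m2 + e1 + e2 + e3 + d) := by
  -- the unknown given more
  have a1 : CH q L0 (fun ω => (El ω, (V0 ω, W ω))) ≤ CH q L0 (fun ω => (V0 ω, c0 ω)) :=
    CH_mono_cond hq fun ω ω' a b e => by
      simp only [Prod.mk.injEq] at e ⊢
      exact ⟨e.2.1, hW ω ω' a b e.2.2⟩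
  have a2 := CH_le_add hq La L0 (fun ω => (El ω, (V0 ω, W ω)))
  -- the leaf and the data of weight 0
  have b1 := CH_chain hq La El W
  have b2 := CH_chain hq La El (fun ω => (V0 ω, W ω))
  have b3 : CH q El (fun ω => (V0 ω, W ω)) ≤ CH q El W :=
    CH_mono_cond hq fun ω ω' _ _ e => (Prod.ext_iff.1 e).2
  -- the position given the leaf
  have c1 : CH q La (fun ω => (Yt ω, (El ω, W ω))) ≤ CH q La (fun ω => (El ω, W ω)) :=
    CH_mono_cond hq fun ω ω' _ _ e => (Prod.ext_iff.1 e).2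
  have c2 := CH_le_add hq Lt La (fun ω => (Yt ω, (El ω, W ω)))
  have c3 := CH_chain hq Lt Yt (fun ω => (El ω, W ω))
  have c4 := mi_sym hq El (fun ω => (Lt ω, Yt ω)) W
  linarith

/-- **The core of (RF).** -/
theorem rf_core {q : Ω → ℝ} (hq : ∀ ω, 0 ≤ q ω) {W : Ω → S₀} {Y0 : Ω → S₁} {V : Ω → S₂}
    {K0 m d : ℝ} (h1 : CH q V W ≤ CH q V (fun ω => (Y0 ω, W ω)) + m)
    (h2 : K0 ≤ CH q Y0 W + d) :
    K0 ≤ CH q Y0 (fun ω => (V ω, W ω)) + (m + d) := by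
  have h3 := mi_sym hq V Y0 W
  linarith

/-- A part of the variables. -/
theorem mi_part {q : Ω → ℝ} (hq : ∀ ω, 0 ≤ q ω) {X : Ω → S₁} {Y : Ω → S₂} {W : Ω → S₃}
    {X' : Ω → S₄} {Y' : Ω → S₅} {m e₁ e₂ : ℝ}
    (h : CH q Y W ≤ CH q Y (fun ω => (X ω, W ω)) + m)
    (hX : CH q X' (fun ω => (X ω, W ω)) ≤ e₁) (hY : CH q Y' (fun ω => (Y ω, W ω)) ≤ e₂) :
    CH q Y' W ≤ CH q Y' (fun ω => (X' ω, W ω)) + (m + e₁ + e₂) :=
  Pool.P4E.use_gen hq h hX hY

end Pool.P546
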